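import Mathlib

set_option autoImplicit false

/-!
# Mixed resolving sets: basic notions, potentials, ears
-/

namespace Pool.Agent.W5h10.MD

open SimpleGraph

universe u

variable {V : Type u}

/-- the smaller one of the distances from `s` to `a` and `b` -/
noncomputable def mn (G : SimpleGraph V) (s a b : V) : ℕ := min (G.dist s a) (G.dist s b)

/-- the pair `a, b` represents a vertex (`a = b`) or an edge -/
def El (G : SimpleGraph V) (a b : V) : Prop := a = b ∨ G.Adj a b

/-- the set `S` distinguishes all vertices and edges -/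
def Res (G : SimpleGraph V) (S : Set V) : Prop :=
  ∀ a b c d, El G a b → El G c d → (∀ s ∈ S, mn G s a b = mn G s c d) → s(a, b) = s(c, d)

lemma El.symm {G : SimpleGraph V} {a b : V} (h : El G a b) : El G b a := by
  rcases h with rfl | h
  · exact Or.inl rfl
  · exact Or.inr h.symm

lemma mn_comm (G : SimpleGraph V) (s a b : V) : mn G s a b = mn G s b a := by
  unfold mn; rw [min_comm]

lemma Res.mono {G : SimpleGraph V} {S T : Set V} (h : Res G S) (hST : S ⊆ T) : Res G T :=
  fun a b c d h1 h2 h3 => h a b c d h1 h2 fun s hs => h3 s (hST hs)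

lemma walk_pot {G : SimpleGraph V} (f : V → ℕ) (hf : ∀ x y, G.Adj x y → f y ≤ f x + 1)
    {a b : V} (p : G.Walk a b) : f b ≤ f a + p.length := by
  induction p with
  | nil => simp
  | cons h p ih =>
    have := hf _ _ h
    simp only [Walk.length_cons]
    omega

lemma dist_pot {G : SimpleGraph V} (hG : G.Connected) (f : V → ℕ)
    (hf : ∀ x y, G.Adj x y → f y ≤ f x + 1) (a b : V) : f b ≤ f a + G.dist a b := by
  obtain ⟨p, hp⟩ := hG.exists_walk_length_eq_dist a b
  rw [← hp]
  exact walk_pot f hf p

lemma dist_adj_le {G : SimpleGraph V} (hG : G.Connected) (s : V) {a b : V} (h : G.Adj a b) :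
    G.dist s b ≤ G.dist s a + 1 := by
  have := hG.dist_triangle (u := s) (v := a) (w := b)
  rw [SimpleGraph.dist_eq_one_iff_adj.2 h] at this
  exact this

lemma dist_zero {G : SimpleGraph V} (hG : G.Connected) {a b : V} (h : G.dist a b = 0) : a = b :=
  hG.dist_eq_zero_iff.1 h

lemma mn_zero {G : SimpleGraph V} (hG : G.Connected) {s a b : V} (h : mn G s a b = 0) :
    s = a ∨ s = b := by
  unfold mn at h
  rcases Nat.min_eq_zero_iff.1 h with h | h
  · exact Or.inl (dist_zero hG h)
  · exact Or.inr (dist_zero hG h)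

lemma mn_left (G : SimpleGraph V) (s b : V) : mn G s s b = 0 := by
  unfold mn; rw [dist_self]; exact Nat.zero_min _

lemma mn_right (G : SimpleGraph V) (s b : V) : mn G s b s = 0 := by
  rw [mn_comm, mn_left]

/-- there is a neighbour one step closer -/
lemma exists_closer {G : SimpleGraph V} (hG : G.Connected) {a b : V} (h : a ≠ b) :
    ∃ z, G.Adj a z ∧ G.dist z b + 1 = G.dist a b := by
  obtain ⟨p, hp⟩ := hG.exists_walk_length_eq_dist a b
  cases p with
  | nil => exact absurd rfl h
  | cons hadj p =>
    rename_i z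
    refine ⟨z, hadj, ?_⟩
    have h1 := G.dist_le p
    have h2 := hG.dist_triangle (u := a) (v := z) (w := b)
    rw [SimpleGraph.dist_eq_one_iff_adj.2 hadj] at h2
    simp only [Walk.length_cons] at hp
    omega

/-- a path whose inner vertices have degree two -/
structure Ear (G : SimpleGraph V) (p : ℕ → V) (l : ℕ) : Prop where
  two : 2 ≤ l
  inj : ∀ i j, i ≤ l → j ≤ l → p i = p j → i = j
  adj : ∀ i, i < l → G.Adj (p i) (p (i + 1))
  nbr : ∀ i, 0 < i → i < l → ∀ z, G.Adj (p i) z → z = p (i - 1) ∨ z = p (i + 1)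

/-- the complement of the set of inner vertices -/
def Out (p : ℕ → V) (l : ℕ) : Set V := {z | ∀ i, 0 < i → i < l → z ≠ p i}

lemma not_mem_Out {p : ℕ → V} {l : ℕ} {z : V} (h : z ∉ Out p l) :
    ∃ i, 0 < i ∧ i < l ∧ z = p i := by
  simp only [Out, Set.mem_ofPred_eq, not_forall, not_not] at h
  obtain ⟨i, h1, h2, h3⟩ := h
  exact ⟨i, h1, h2, h3⟩

section

variable {G : SimpleGraph V} {p : ℕ → V} {l : ℕ}

lemma Ear.zero_mem (h : Ear G p l) : p 0 ∈ Out p l := by
  intro i hi hil he
  have := h.inj 0 i (Nat.zero_le _) hil.le he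
  omega

lemma Ear.last_mem (h : Ear G p l) : p l ∈ Out p l := by
  intro i hi hil he
  have := h.inj l i le_rfl hil.le he
  omega

lemma Ear.not_mem (_h : Ear G p l) {i : ℕ} (hi : 0 < i) (hil : i < l) : p i ∉ Out p l :=
  fun hh => hh i hi hil rfl

lemma Ear.mem_iff (h : Ear G p l) {i : ℕ} (hi : i ≤ l) : p i ∈ Out p l ↔ i = 0 ∨ i = l := by
  constructor
  · intro hm
    by_contra hcon
    push Not at hcon
    exact h.not_mem (Nat.pos_of_ne_zero hcon.1) (lt_of_le_of_ne hi hcon.2) hm
  · rintro (rfl | rfl)
    · exact h.zero_mem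
    · exact h.last_mem

/-- the edges of the graph -/
lemma Ear.adj_cases (h : Ear G p l) {x y : V} (hxy : G.Adj x y) :
    (x ∈ Out p l ∧ y ∈ Out p l) ∨ (∃ i, i < l ∧ x = p i ∧ y = p (i + 1)) ∨
      (∃ i, i < l ∧ y = p i ∧ x = p (i + 1)) := by
  by_cases hx : x ∈ Out p l
  · by_cases hy : y ∈ Out p l
    · exact Or.inl ⟨hx, hy⟩
    · obtain ⟨i, h1, h2, rfl⟩ := not_mem_Out hy
      rcases h.nbr i h1 h2 x hxy.symm with rfl | rfl
      · right; left
        refine ⟨i - 1, by omega, rfl, ?_⟩
        congr 1; omega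
      · right; right
        exact ⟨i, h2, rfl, rfl⟩
  · obtain ⟨i, h1, h2, rfl⟩ := not_mem_Out hx
    rcases h.nbr i h1 h2 y hxy with rfl | rfl
    · right; right
      refine ⟨i - 1, by omega, rfl, ?_⟩
      congr 1; omega
    · right; left
      exact ⟨i, h2, rfl, rfl⟩

lemma Ear.rev (h : Ear G p l) : Ear G (fun i => p (l - i)) l where
  two := h.two
  inj := by
    intro i j hi hj he
    have := h.inj (l - i) (l - j) (by omega) (by omega) he
    omega
  adj := by
    intro i hi
    have := (h.adj (l - (i + 1)) (by omega)).symm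
    rwa [show l - (i + 1) + 1 = l - i by omega] at this
  nbr := by
    intro i hi hil z hz
    rcases h.nbr (l - i) (by omega) (by omega) z hz with rfl | rfl
    · right
      show p (l - i - 1) = p (l - (i + 1))
      congr 1
    · left
      show p (l - i + 1) = p (l - (i - 1))
      congr 1; omega

lemma Out_rev (p : ℕ → V) (l : ℕ) : Out (fun i => p (l - i)) l = Out p l := by
  ext z
  constructor
  · intro h i hi hil he
    have := h (l - i) (by omega) (by omega)
    simp only at this
    rw [show l - (l - i) = i by omega] at this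
    exact this he
  · intro h i hi hil he
    exact h (l - i) (by omega) (by omega) he

lemma Ear.dist_le (h : Ear G p l) (hG : G.Connected) {i j : ℕ} (hij : i ≤ j) (hj : j ≤ l) :
    G.dist (p i) (p j) ≤ j - i := by
  induction j with
  | zero =>
    have : i = 0 := by omega
    subst this
    simp
  | succ j ih =>
    rcases Nat.lt_or_ge j i with hlt | hge
    · have : i = j + 1 := by omega
      subst this
      simp
    · have h1 := ih hge (by omega)
      have h2 := dist_adj_le hG (p i) (h.adj j (by omega))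
      omega

end

end Pool.Agent.W5h10.MD
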