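import Pool.Agent.W5h10.MD.Main

set_option autoImplicit false

/-!
# Connected 2-regular graphs are cycles
-/

namespace Pool.Agent.W5h10.MD

open SimpleGraph

universe u

variable {V : Type u} {G : SimpleGraph V}

lemma sub_one_iff {l : ℕ} (hl : 2 ≤ l) (i j : Fin (l + 1)) :
    (i - j).val = 1 ↔ (i.val = j.val + 1 ∨ (i.val = 0 ∧ j.val = l)) := by
  rw [Fin.sub_def]
  simp only
  have hi := i.2
  have hj := j.2
  rcases Nat.lt_or_ge i.val j.val with h | h
  · rw [Nat.mod_eq_of_lt (by omega)]
    omega
  · rw [show l + 1 - j.val + i.val = (i.val - j.val) + (l + 1) by omega, Nat.add_mod_right,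
      Nat.mod_eq_of_lt (by omega)]
    omega

theorem iso_cycle [Fintype V] [Nonempty V] (hG : G.Connected) (hreg : ∀ v, dgr G v = 2) :
    ∃ n, 3 ≤ n ∧ Nonempty (G ≃g cycleGraph n) := by
  obtain ⟨v⟩ := ‹Nonempty V›
  have h0 : ∃ p l, Ear G p l ∧ (fun (_ : ℕ → V) (_ : ℕ) => True) p l := by
    obtain ⟨a, b, hab, hh⟩ := dgr_two (hreg v)
    exact ⟨_, 2, ear_two hab hh, trivial⟩
  obtain ⟨p, l, h, -, hmax⟩ := exists_max (fun _ _ => True) h0
  have hl2 := h.two
  rcases h.extend (hreg _) with ⟨p', h3, h4⟩ | ⟨h3, h4⟩
  · have := hmax p' (l + 1) h3 trivial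
    omega
  · have h5 : ∀ z, G.Adj (p l) z → z = p (l - 1) ∨ z = p 0 := by
      intro w hw
      obtain ⟨a, b, hab, hh⟩ := dgr_two (hreg (p l))
      have e1 := (hh (p 0)).1 h3.symm
      have e2' := h.adj (l - 1) (by omega)
      rw [show l - 1 + 1 = l by omega] at e2'
      have e2 := (hh (p (l - 1))).1 e2'.symm
      have e3 : p 0 ≠ p (l - 1) := by
        intro he
        have := h.inj 0 (l - 1) (by omega) (by omega) he
        omega
      have e4 := (hh w).1 hw
      clear hh hreg hmax h4
      grind
    have hall := closed_univ hG {z | ∃ i, i ≤ l ∧ z = p i} ⟨p 0, 0, by omega, rfl⟩ (by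
      rintro z ⟨i, hi, rfl⟩ w hw
      by_cases hi0 : i = 0
      · subst hi0
        rcases h4 w hw with rfl | rfl
        · exact ⟨1, by omega, rfl⟩
        · exact ⟨l, le_rfl, rfl⟩
      · by_cases hil : i = l
        · subst hil
          rcases h5 w hw with rfl | rfl
          · exact ⟨i - 1, by omega, rfl⟩
          · exact ⟨0, by omega, rfl⟩
        · rcases h.nbr i (by omega) (by omega) w hw with rfl | rfl
          · exact ⟨i - 1, by omega, rfl⟩
          · exact ⟨i + 1, by omega, rfl⟩)
    let f : Fin (l + 1) → V := fun i => p i.1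
    have hf : Function.Bijective f := by
      constructor
      · intro i j he
        exact Fin.ext (h.inj _ _ (by omega) (by omega) he)
      · intro z
        obtain ⟨i, hi, rfl⟩ := hall z
        exact ⟨⟨i, by omega⟩, rfl⟩
    let e : Fin (l + 1) ≃ V := Equiv.ofBijective f hf
    have hadj : ∀ i j : ℕ, i ≤ l → j ≤ l → (G.Adj (p i) (p j) ↔
        ((i = j + 1 ∨ (i = 0 ∧ j = l)) ∨ (j = i + 1 ∨ (j = 0 ∧ i = l)))) := by
      intro i j hi hj
      constructor
      · intro hij
        by_cases hi0 : i = 0
        · subst hi0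
          rcases h4 _ hij with he | he
          · have := h.inj j 1 hj (by omega) he
            omega
          · have := h.inj j l hj (by omega) he
            omega
        · by_cases hil : i = l
          · subst hil
            rcases h5 _ hij with he | he
            · have := h.inj j (i - 1) hj (by omega) he
              omega
            · have := h.inj j 0 hj (by omega) he
              omega
          · rcases h.nbr i (by omega) (by omega) _ hij with he | he
            · have := h.inj j (i - 1) hj (by omega) he
              omega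
            · have := h.inj j (i + 1) hj (by omega) he
              omega
      · rintro ((rfl | ⟨rfl, rfl⟩) | (rfl | ⟨rfl, rfl⟩))
        · exact (h.adj j (by omega)).symm
        · exact h3
        · exact h.adj i (by omega)
        · exact h3.symm
    refine ⟨l + 1, by omega, ⟨RelIso.symm ⟨e, ?_⟩⟩⟩
    intro i j
    show G.Adj (p i.1) (p j.1) ↔ _
    rw [hadj i.1 j.1 (by omega) (by omega), cycleGraph_adj', sub_one_iff hl2, sub_one_iff hl2]

end Pool.Agent.W5h10.MD
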