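import Pool.Agent.W5h10.MD.Basic

set_option autoImplicit false

/-!
# Distances in a graph with an ear which is not shorter than the way around it
-/

namespace Pool.Agent.W5h10.MD

open SimpleGraph

universe u

variable {V : Type u} {G : SimpleGraph V} {p : ℕ → V} {l : ℕ}

/-- the rest of the graph is connected -/
lemma Ear.connected (h : Ear G p l) (hG : G.Connected)
    (hr : (G.induce (Out p l)).Reachable ⟨p 0, h.zero_mem⟩ ⟨p l, h.last_mem⟩) :
    (G.induce (Out p l)).Connected := by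
  have key : ∀ x y : V, G.Walk x y → ∀ hy : y ∈ Out p l,
      (x ∈ Out p l → ∀ hx : x ∈ Out p l,
        (G.induce (Out p l)).Reachable ⟨x, hx⟩ ⟨y, hy⟩) ∧
      (x ∉ Out p l → (G.induce (Out p l)).Reachable ⟨p 0, h.zero_mem⟩ ⟨y, hy⟩) := by
    intro x y q
    induction q with
    | nil =>
      intro hy
      exact ⟨fun _ _ => Reachable.refl _, fun hx => absurd hy hx⟩
    | cons hadj q ih =>
      rename_i a b c
      intro hy
      obtain ⟨ih1, ih2⟩ := ih hy
      refine ⟨fun _ hx => ?_, fun hx => ?_⟩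
      · by_cases hb : b ∈ Out p l
        · have h1 : (G.induce (Out p l)).Adj ⟨a, hx⟩ ⟨b, hb⟩ := hadj
          exact h1.reachable.trans (ih1 hb hb)
        · obtain ⟨i, h1, h2, rfl⟩ := not_mem_Out hb
          have h3 := ih2 hb
          rcases h.nbr i h1 h2 a hadj.symm with rfl | rfl
          · have := (h.mem_iff (i := i - 1) (by omega)).1 hx
            have h0 : i - 1 = 0 := by omega
            simp only [h0]
            exact h3
          · have := (h.mem_iff (i := i + 1) (by omega)).1 hx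
            have h0 : i + 1 = l := by omega
            simp only [h0]
            exact hr.symm.trans h3
      · obtain ⟨i, h1, h2, rfl⟩ := not_mem_Out hx
        by_cases hb : b ∈ Out p l
        · have h3 := ih1 hb hb
          rcases h.nbr i h1 h2 b hadj with rfl | rfl
          · have := (h.mem_iff (i := i - 1) (by omega)).1 hb
            have h0 : i - 1 = 0 := by omega
            simp only [h0] at h3
            exact h3
          · have := (h.mem_iff (i := i + 1) (by omega)).1 hb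
            have h0 : i + 1 = l := by omega
            simp only [h0] at h3
            exact hr.trans h3
        · exact ih2 hb
  have : Nonempty (Out p l) := ⟨⟨p 0, h.zero_mem⟩⟩
  refine (connected_iff _).2 ⟨?_, this⟩
  rintro ⟨x, hx⟩ ⟨y, hy⟩
  obtain ⟨q⟩ := hG.preconnected x y
  exact (key x y q hy).1 hx hx

section

variable (h : Ear G p l)

/-- index of an inner vertex -/
noncomputable def idx (p : ℕ → V) (l : ℕ) (z : V) : ℕ :=
  open Classical in if hz : ∃ i, 0 < i ∧ i < l ∧ z = p i then hz.choose else 0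

lemma Ear.idx_eq (h : Ear G p l) {i : ℕ} (hi : 0 < i) (hil : i < l) : idx p l (p i) = i := by
  have hz : ∃ j, 0 < j ∧ j < l ∧ p i = p j := ⟨i, hi, hil, rfl⟩
  unfold idx
  rw [dif_pos hz]
  obtain ⟨h1, h2, h3⟩ := hz.choose_spec
  exact (h.inj _ _ hil.le h2.le h3).symm

/-- extend a function on the outside by a function on the ear -/
noncomputable def ext (p : ℕ → V) (l : ℕ) (f : Out p l → ℕ) (g : ℕ → ℕ) (z : V) : ℕ :=
  open Classical in if hz : z ∈ Out p l then f ⟨z, hz⟩ else g (idx p l z)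

lemma ext_out {f : Out p l → ℕ} {g : ℕ → ℕ} {z : V} (hz : z ∈ Out p l) :
    ext p l f g z = f ⟨z, hz⟩ := by
  unfold ext; rw [dif_pos hz]

lemma Ear.ext_p (h : Ear G p l) {f : Out p l → ℕ} {g : ℕ → ℕ}
    (h0 : f ⟨p 0, h.zero_mem⟩ = g 0) (hl : f ⟨p l, h.last_mem⟩ = g l) {i : ℕ} (hi : i ≤ l) :
    ext p l f g (p i) = g i := by
  by_cases h1 : i = 0
  · subst h1; rw [ext_out h.zero_mem, h0]
  · by_cases h2 : i = l
    · subst h2; rw [ext_out h.last_mem, hl]
    · unfold ext
      rw [dif_neg (h.not_mem (by omega) (by omega)), h.idx_eq (by omega) (by omega)]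

lemma Ear.ext_lip (h : Ear G p l) {f : Out p l → ℕ} {g : ℕ → ℕ}
    (h0 : f ⟨p 0, h.zero_mem⟩ = g 0) (hl : f ⟨p l, h.last_mem⟩ = g l)
    (hf : ∀ x y : Out p l, (G.induce (Out p l)).Adj x y → f y ≤ f x + 1)
    (hg : ∀ i, i < l → g i ≤ g (i + 1) + 1 ∧ g (i + 1) ≤ g i + 1) :
    ∀ x y, G.Adj x y → ext p l f g y ≤ ext p l f g x + 1 := by
  intro x y hxy
  rcases h.adj_cases hxy with ⟨hx, hy⟩ | ⟨i, hi, rfl, rfl⟩ | ⟨i, hi, rfl, rfl⟩
  · rw [ext_out hx, ext_out hy]
    exact hf _ _ hxy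
  · rw [h.ext_p h0 hl (by omega), h.ext_p h0 hl (by omega)]
    exact (hg i hi).2
  · rw [h.ext_p h0 hl (by omega), h.ext_p h0 hl (by omega)]
    exact (hg i hi).1

variable (hG : G.Connected) (hc : (G.induce (Out p l)).Connected)
  (hd : (G.induce (Out p l)).dist ⟨p 0, h.zero_mem⟩ ⟨p l, h.last_mem⟩ ≤ l)

include hG hc hd

/-- the potential that gives the distances from an outer vertex -/
lemma Ear.lower (s z : V) (hs : s ∈ Out p l) :
    ext p l (fun x => (G.induce (Out p l)).dist ⟨s, hs⟩ x)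
      (fun i => min ((G.induce (Out p l)).dist ⟨s, hs⟩ ⟨p 0, h.zero_mem⟩ + i)
        ((G.induce (Out p l)).dist ⟨s, hs⟩ ⟨p l, h.last_mem⟩ + (l - i))) z ≤ G.dist s z := by
  have t1 := hc.dist_triangle (u := ⟨s, hs⟩) (v := ⟨p 0, h.zero_mem⟩) (w := ⟨p l, h.last_mem⟩)
  have t2 := hc.dist_triangle (u := ⟨s, hs⟩) (v := ⟨p l, h.last_mem⟩) (w := ⟨p 0, h.zero_mem⟩)
  have t3 : (G.induce (Out p l)).dist ⟨p l, h.last_mem⟩ ⟨p 0, h.zero_mem⟩ =
    (G.induce (Out p l)).dist ⟨p 0, h.zero_mem⟩ ⟨p l, h.last_mem⟩ := SimpleGraph.dist_comm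
  have hl2 := h.two
  refine le_trans (dist_pot hG _ (h.ext_lip ?_ ?_ ?_ ?_) s z) ?_
  · show _ = min _ _
    omega
  · show _ = min _ _
    omega
  · intro x y hxy
    exact dist_adj_le hc _ hxy
  · intro i hi
    omega
  · rw [ext_out hs, SimpleGraph.dist_self, zero_add]

lemma Ear.dist_out {s z : V} (hs : s ∈ Out p l) (hz : z ∈ Out p l) :
    G.dist s z = (G.induce (Out p l)).dist ⟨s, hs⟩ ⟨z, hz⟩ := by
  apply le_antisymm
  · obtain ⟨q, hq⟩ := hc.exists_walk_length_eq_dist ⟨s, hs⟩ ⟨z, hz⟩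
    rw [← hq, ← Walk.length_map (Embedding.induce (Out p l)).toHom q]
    exact G.dist_le _
  · have := h.lower hG hc hd s z hs
    rwa [ext_out hz] at this

lemma Ear.dist_p {s : V} (hs : s ∈ Out p l) {t : ℕ} (ht : t ≤ l) :
    G.dist s (p t) = min (G.dist s (p 0) + t) (G.dist s (p l) + (l - t)) := by
  apply le_antisymm
  · have t1 := hG.dist_triangle (u := s) (v := p 0) (w := p t)
    have t2 := hG.dist_triangle (u := s) (v := p l) (w := p t)
    have t3 := h.dist_le hG (Nat.zero_le t) ht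
    have t4 := h.dist_le hG ht le_rfl
    have t5 : G.dist (p t) (p l) = G.dist (p l) (p t) := SimpleGraph.dist_comm
    omega
  · have := h.lower hG hc hd s (p t) hs
    have t1 := hc.dist_triangle (u := ⟨s, hs⟩) (v := ⟨p 0, h.zero_mem⟩) (w := ⟨p l, h.last_mem⟩)
    have t2 := hc.dist_triangle (u := ⟨s, hs⟩) (v := ⟨p l, h.last_mem⟩) (w := ⟨p 0, h.zero_mem⟩)
    have t3 : (G.induce (Out p l)).dist ⟨p l, h.last_mem⟩ ⟨p 0, h.zero_mem⟩ =
      (G.induce (Out p l)).dist ⟨p 0, h.zero_mem⟩ ⟨p l, h.last_mem⟩ := SimpleGraph.dist_comm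
    have hl2 := h.two
    rw [h.ext_p (by omega) (by omega) ht] at this
    rw [h.dist_out hG hc hd hs h.zero_mem, h.dist_out hG hc hd hs h.last_mem]
    exact this

/-- distances from a suitable inner vertex -/
lemma Ear.dist_mid {m : ℕ} (hm : m ≤ l) (h1 : 2 * m ≤ l + G.dist (p 0) (p l))
    (h2 : l ≤ 2 * m + G.dist (p 0) (p l)) {t : ℕ} (ht : t ≤ l) :
    G.dist (p m) (p t) = (m - t) + (t - m) := by
  apply le_antisymm
  · rcases Nat.le_total m t with hmt | hmt
    · have := h.dist_le hG hmt ht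
      omega
    · have := h.dist_le hG hmt hm
      have t5 : G.dist (p m) (p t) = G.dist (p t) (p m) := SimpleGraph.dist_comm
      omega
  · have hdd := h.dist_out hG hc hd h.zero_mem h.last_mem
    have t3 : (G.induce (Out p l)).dist ⟨p l, h.last_mem⟩ ⟨p 0, h.zero_mem⟩ =
      (G.induce (Out p l)).dist ⟨p 0, h.zero_mem⟩ ⟨p l, h.last_mem⟩ := SimpleGraph.dist_comm
    have t6 : (G.induce (Out p l)).dist ⟨p 0, h.zero_mem⟩ ⟨p 0, h.zero_mem⟩ = 0 :=
      SimpleGraph.dist_self
    have t7 : (G.induce (Out p l)).dist ⟨p l, h.last_mem⟩ ⟨p l, h.last_mem⟩ = 0 :=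
      SimpleGraph.dist_self
    set f : Out p l → ℕ := fun x => min (m + (G.induce (Out p l)).dist ⟨p 0, h.zero_mem⟩ x)
      ((l - m) + (G.induce (Out p l)).dist ⟨p l, h.last_mem⟩ x) with hf
    set g : ℕ → ℕ := fun i => (m - i) + (i - m) with hg
    have h0 : f ⟨p 0, h.zero_mem⟩ = g 0 := by
      simp only [hf, hg]
      omega
    have hl : f ⟨p l, h.last_mem⟩ = g l := by
      simp only [hf, hg]
      omega
    have hlip : ∀ x y : Out p l, (G.induce (Out p l)).Adj x y → f y ≤ f x + 1 := by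
      intro x y hxy
      have a1 := dist_adj_le hc ⟨p 0, h.zero_mem⟩ hxy
      have a2 := dist_adj_le hc ⟨p l, h.last_mem⟩ hxy
      simp only [hf]
      omega
    have hgl : ∀ i, i < l → g i ≤ g (i + 1) + 1 ∧ g (i + 1) ≤ g i + 1 := by
      intro i hi
      simp only [hg]
      omega
    have key := dist_pot hG (ext p l f g) (h.ext_lip h0 hl hlip hgl) (p m) (p t)
    rw [h.ext_p h0 hl hm, h.ext_p h0 hl ht] at key
    simp only [hg] at key
    omega

end

end Pool.Agent.W5h10.MD
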