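import Pool.Agent.W5h10.MD.EarDist

set_option autoImplicit false

/-!
# Adding an ear: two more landmarks suffice (one of them an end of the ear)
-/

namespace Pool.Agent.W5h10.MD

open SimpleGraph

universe u

variable {V : Type u} {G : SimpleGraph V} {p : ℕ → V} {l : ℕ}

lemma n1 {l m A B t e : ℕ} (hAB : B + l ≤ A + 2 * m) (he : e ≤ 1) (c : m < t + e) (ht : t + e ≤ l) :
    min (A + t) (B + (l - t - e)) = B + (l - t - e) := by omega

lemma n2 {l m D t e : ℕ} (hm : 2 * m ≤ l + D) (c : t + e ≤ m) (ht : t + e ≤ l) :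
    min (0 + t) (D + (l - t - e)) = t := by omega

lemma n3 {m t e : ℕ} (he : e ≤ 1) (c : t + e ≤ m) :
    min ((m - t) + (t - m)) ((m - (t + e)) + ((t + e) - m)) = m - (t + e) := by omega

lemma n4 {m t e : ℕ} (he : e ≤ 1) (c : m < t + e) :
    min ((m - t) + (t - m)) ((m - (t + e)) + ((t + e) - m)) = t - m := by omega

lemma n5 {l D m A B t e t' e' : ℕ} (hm1 : 2 * m + 1 ≤ l + D) (he : e ≤ 1) (he' : e' ≤ 1)
    (hDl : D ≤ l) (hD : 1 ≤ D) (hAB : B + l ≤ A + 2 * m)
    (c1 : m < t + e) (c2 : t' + e' ≤ m) (ht : t + e ≤ l)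
    (h1 : min (0 + t) (D + (l - t - e)) = t')
    (h2 : t - m = m - (t' + e'))
    (h3 : B + (l - t - e) = min (A + t') (B + (l - t' - e'))) : False := by
  rcases Nat.le_total (0 + t) (D + (l - t - e)) with h | h
  · rw [min_eq_left h] at h1
    omega
  · rw [min_eq_right h] at h1
    rcases Nat.le_total (A + t') (B + (l - t' - e')) with k | k
    · rw [min_eq_left k] at h3
      omega
    · rw [min_eq_right k] at h3
      omega

lemma num_pp {l D m A B t e t' e' : ℕ} (hD1 : 0 < D) (hDl : D ≤ l)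
    (hm : m = (l + D - 1) / 2)
    (he : e ≤ 1) (hte : t + e ≤ l)
    (he' : e' ≤ 1) (hte' : t' + e' ≤ l)
    (hw : B + 2 ≤ A + D)
    (h1 : min (0 + t) (D + (l - t - e)) = min (0 + t') (D + (l - t' - e')))
    (h2 : min ((m - t) + (t - m)) ((m - (t + e)) + ((t + e) - m)) =
      min ((m - t') + (t' - m)) ((m - (t' + e')) + ((t' + e') - m)))
    (h3 : min (A + t) (B + (l - t - e)) = min (A + t') (B + (l - t' - e'))) :
    t = t' ∧ e = e' := by
  have hm1 : 2 * m + 1 ≤ l + D := by clear h1 h2 h3; omega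
  have hm1' : 2 * m ≤ l + D := by clear h1 h2 h3; omega
  have hm2 : l + D ≤ 2 * m + 2 := by clear h1 h2 h3; omega
  have hAB : B + l ≤ A + 2 * m := by clear h1 h2 h3; omega
  clear hm hw
  rcases Nat.lt_or_ge m (t + e) with c1 | c1
  · rcases Nat.lt_or_ge m (t' + e') with c2 | c2
    · rw [n1 hAB he c1 hte, n1 hAB he' c2 hte'] at h3
      rw [n4 he c1, n4 he' c2] at h2
      clear h1
      omega
    · rw [n4 he c1, n3 he' c2] at h2
      rw [n2 hm1' c2 hte'] at h1
      rw [n1 hAB he c1 hte] at h3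
      exact (n5 hm1 he he' hDl hD1 hAB c1 c2 hte h1 h2 h3).elim
  · rcases Nat.lt_or_ge m (t' + e') with c2 | c2
    · rw [n3 he c1, n4 he' c2] at h2
      rw [n2 hm1' c1 hte] at h1
      rw [n1 hAB he' c2 hte'] at h3
      exact (n5 hm1 he' he hDl hD1 hAB c2 c1 hte' h1.symm h2.symm h3.symm).elim
    · rw [n3 he c1, n3 he' c2] at h2
      rw [n2 hm1' c1 hte, n2 hm1' c2 hte'] at h1
      clear h3
      omega

lemma mn_congr {s a b c d : V} (h : s(a, b) = s(c, d)) : mn G s a b = mn G s c d := by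
  rcases Sym2.eq_iff.1 h with ⟨rfl, rfl⟩ | ⟨rfl, rfl⟩
  · rfl
  · exact mn_comm G s _ _

lemma Ear.el_cases (h : Ear G p l) {a b : V} (hab : El G a b) :
    (a ∈ Out p l ∧ b ∈ Out p l) ∨ ∃ t e, e ≤ 1 ∧ t + e ≤ l ∧ (e = 0 → 0 < t ∧ t < l) ∧
      s(a, b) = s(p t, p (t + e)) := by
  rcases hab with rfl | hab
  · by_cases ha : a ∈ Out p l
    · exact Or.inl ⟨ha, ha⟩
    · obtain ⟨i, h1, h2, rfl⟩ := not_mem_Out ha
      exact Or.inr ⟨i, 0, by omega, by omega, fun _ => ⟨h1, h2⟩, rfl⟩
  · rcases h.adj_cases hab with h1 | ⟨i, hi, rfl, rfl⟩ | ⟨i, hi, rfl, rfl⟩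
    · exact Or.inl h1
    · exact Or.inr ⟨i, 1, by omega, by omega, by omega, rfl⟩
    · exact Or.inr ⟨i, 1, by omega, by omega, by omega, Sym2.eq_swap⟩

section

variable (h : Ear G p l) (hG : G.Connected) (hc : (G.induce (Out p l)).Connected)
  (hd : (G.induce (Out p l)).dist ⟨p 0, h.zero_mem⟩ ⟨p l, h.last_mem⟩ ≤ l)

include h hG hc hd

lemma Ear.mn_out {s a b : V} (hs : s ∈ Out p l) (ha : a ∈ Out p l) (hb : b ∈ Out p l) :
    mn G s a b = mn (G.induce (Out p l)) ⟨s, hs⟩ ⟨a, ha⟩ ⟨b, hb⟩ := by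
  unfold mn
  rw [h.dist_out hG hc hd hs ha, h.dist_out hG hc hd hs hb]

lemma Ear.mn_p {s : V} (hs : s ∈ Out p l) {t e : ℕ} (he : e ≤ 1) (ht : t + e ≤ l) :
    mn G s (p t) (p (t + e)) = min (G.dist s (p 0) + t) (G.dist s (p l) + (l - t - e)) := by
  unfold mn
  rw [h.dist_p hG hc hd hs (by omega), h.dist_p hG hc hd hs ht]
  omega

lemma Ear.mn_mid_p {m : ℕ} (hm : m ≤ l) (h1 : 2 * m ≤ l + G.dist (p 0) (p l))
    (h2 : l ≤ 2 * m + G.dist (p 0) (p l)) {t e : ℕ} (ht : t + e ≤ l) :
    mn G (p m) (p t) (p (t + e)) =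
      min ((m - t) + (t - m)) ((m - (t + e)) + ((t + e) - m)) := by
  unfold mn
  rw [h.dist_mid hG hc hd hm h1 h2 (by omega), h.dist_mid hG hc hd hm h1 h2 ht]

lemma Ear.mn_mid_out {m : ℕ} (hm : m ≤ l) {a b : V} (ha : a ∈ Out p l) (hb : b ∈ Out p l) :
    mn G (p m) a b = min (m + mn G (p 0) a b) ((l - m) + mn G (p l) a b) := by
  unfold mn
  have h1 := h.dist_p hG hc hd ha hm
  have h2 := h.dist_p hG hc hd hb hm
  have e1 : G.dist a (p m) = G.dist (p m) a := SimpleGraph.dist_comm
  have e2 : G.dist b (p m) = G.dist (p m) b := SimpleGraph.dist_comm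
  have e3 : G.dist a (p 0) = G.dist (p 0) a := SimpleGraph.dist_comm
  have e4 : G.dist b (p 0) = G.dist (p 0) b := SimpleGraph.dist_comm
  have e5 : G.dist a (p l) = G.dist (p l) a := SimpleGraph.dist_comm
  have e6 : G.dist b (p l) = G.dist (p l) b := SimpleGraph.dist_comm
  omega

omit h hc hd in
lemma mn_tri (s r a b : V) : mn G s a b ≤ G.dist s r + mn G r a b := by
  have h1 := hG.dist_triangle (u := s) (v := r) (w := a)
  have h2 := hG.dist_triangle (u := s) (v := r) (w := b)
  unfold mn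
  omega

omit h hc hd in
lemma mn_sum (r s a b : V) (hab : El G a b) : G.dist r s ≤ mn G r a b + mn G s a b + 1 ∧
    (a = b → G.dist r s ≤ mn G r a b + mn G s a b) := by
  have h1 := hG.dist_triangle (u := r) (v := a) (w := s)
  have h2 := hG.dist_triangle (u := r) (v := b) (w := s)
  have e1 : G.dist a s = G.dist s a := SimpleGraph.dist_comm
  have e2 : G.dist b s = G.dist s b := SimpleGraph.dist_comm
  rcases hab with rfl | hab
  · unfold mn
    omega
  · have h3 := dist_adj_le hG r hab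
    have h4 := dist_adj_le hG r hab.symm
    have h5 := dist_adj_le hG s hab
    have h6 := dist_adj_le hG s hab.symm
    refine ⟨?_, fun hh => absurd hh hab.ne⟩
    unfold mn
    omega

/-- **The ear step.** -/
theorem Ear.res (S : Set (Out p l)) (hS : Res (G.induce (Out p l)) S)
    (hu : ⟨p 0, h.zero_mem⟩ ∈ S) :
    ∃ m, 0 < m ∧ m < l ∧ Res G (Subtype.val '' S ∪ {p m}) := by
  have hl2 := h.two
  have hne : p 0 ≠ p l := fun he => by
    have := h.inj 0 l (by omega) le_rfl he
    omega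
  have hD1 : 0 < G.dist (p 0) (p l) := hG.pos_dist_of_ne hne
  have hdd := h.dist_out hG hc hd h.zero_mem h.last_mem
  -- a landmark that is not too close to `p 0`
  obtain ⟨w, hwS, hw⟩ : ∃ w ∈ S, G.dist w.1 (p l) + 2 ≤ G.dist w.1 (p 0) + G.dist (p 0) (p l) := by
    obtain ⟨z, hz1, hz2⟩ := exists_closer (a := (⟨p 0, h.zero_mem⟩ : Out p l))
      (b := ⟨p l, h.last_mem⟩) hc (fun he => hne (congrArg Subtype.val he))
    have hz3 : ¬ ∀ s ∈ S, mn (G.induce (Out p l)) s ⟨p 0, h.zero_mem⟩ ⟨p 0, h.zero_mem⟩ =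
        mn (G.induce (Out p l)) s ⟨p 0, h.zero_mem⟩ z := by
      intro hall
      have := hS _ _ _ _ (Or.inl rfl) (Or.inr hz1) hall
      rcases Sym2.eq_iff.1 this with ⟨_, h2⟩ | ⟨h2, _⟩
      · exact hz1.ne h2
      · exact hz1.ne h2
    push Not at hz3
    obtain ⟨s, hs, hs2⟩ := hz3
    refine ⟨s, hs, ?_⟩
    have h3 := hc.dist_triangle (u := s) (v := z) (w := ⟨p l, h.last_mem⟩)
    have h4 := h.dist_out hG hc hd s.2 h.zero_mem
    have h5 := h.dist_out hG hc hd s.2 h.last_mem
    unfold mn at hs2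
    simp only [Subtype.coe_eta] at h4 h5
    omega
  set D := G.dist (p 0) (p l) with hD
  have hDl : D ≤ l := by omega
  obtain ⟨m, hm⟩ : ∃ m, m = (l + D - 1) / 2 := ⟨_, rfl⟩
  have hm0 : 0 < m := by omega
  have hml : m < l := by omega
  have hm1 : 2 * m ≤ l + D := by omega
  have hm2 : l ≤ 2 * m + D := by omega
  refine ⟨m, hm0, hml, ?_⟩
  have hPu : G.dist (p 0) (p 0) = 0 := SimpleGraph.dist_self
  have hwt1 := hG.dist_triangle (u := w.1) (v := p 0) (w := p l)
  have hwt2 := hG.dist_triangle (u := w.1) (v := p l) (w := p 0)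
  have hwt3 : G.dist (p l) (p 0) = D := SimpleGraph.dist_comm
  -- an element of the ear against an element of the rest
  have mixed : ∀ a b c d : V, El G a b → a ∈ Out p l → b ∈ Out p l →
      (∃ t e, e ≤ 1 ∧ t + e ≤ l ∧ (e = 0 → 0 < t ∧ t < l) ∧ s(c, d) = s(p t, p (t + e))) →
      (∀ s ∈ Subtype.val '' S ∪ {p m}, mn G s a b = mn G s c d) → False := by
    rintro a b c d hab ha hb ⟨t, e, he, hte, he0, hcd⟩ hall
    have h1 := hall (p 0) (Or.inl ⟨_, hu, rfl⟩)
    have h2 := hall (p m) (Or.inr rfl)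
    rw [mn_congr hcd, h.mn_p hG hc hd h.zero_mem he hte, hPu] at h1
    rw [mn_congr hcd, h.mn_mid_p hG hc hd hml.le hm1 hm2 hte,
      h.mn_mid_out hG hc hd hml.le ha hb] at h2
    obtain ⟨h3, h4⟩ := mn_sum hG (p 0) (p l) a b hab
    rw [← hD] at h3 h4
    by_cases hcase : a ≠ b ∧ e = 0 ∧ t ≤ m
    · -- the special case
      obtain ⟨hne', rfl, htm⟩ := hcase
      have hadj : G.Adj a b := hab.resolve_left hne'
      have ht0 := he0 rfl
      have hα : mn G (p 0) a b = t := by omega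
      have hβ : mn G (p l) a b + t + 1 = D := by omega
      have key : ∀ x y : V, G.Adj x y → x ∈ Out p l → y ∈ Out p l → G.dist (p 0) x = t →
          (∀ s ∈ Subtype.val '' S ∪ {p m}, mn G s x y = mn G s c d) →
          mn G (p l) x y + t + 1 = D → False := by
        intro x y hxy hx hy hxt hall' hβ'
        have : s((⟨x, hx⟩ : Out p l), ⟨x, hx⟩) = s(⟨x, hx⟩, ⟨y, hy⟩) := by
          refine hS _ _ _ _ (Or.inl rfl) (Or.inr hxy) ?_
          intro s hs
          have k1 := hall' s.1 (Or.inl ⟨_, hs, rfl⟩)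
          rw [mn_congr hcd, h.mn_p hG hc hd s.2 he hte] at k1
          have k2 := mn_tri hG s.1 (p l) x y
          have k3 := hG.dist_triangle (u := s.1) (v := p 0) (w := x)
          have k4 := h.mn_out hG hc hd s.2 hx hy
          have k5 := h.mn_out hG hc hd s.2 hx hx
          simp only [Subtype.coe_eta] at k4 k5
          rw [← k4, ← k5]
          unfold mn at k1 k2 ⊢
          unfold mn at hβ'
          omega
        rcases Sym2.eq_iff.1 this with ⟨_, h2⟩ | ⟨h2, _⟩
        · exact hxy.ne (congrArg Subtype.val h2)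
        · exact hxy.ne (congrArg Subtype.val h2)
      rcases Nat.le_total (G.dist (p 0) a) (G.dist (p 0) b) with hle | hle
      · refine key a b hadj ha hb ?_ hall hβ
        unfold mn at hα
        omega
      · refine key b a hadj.symm hb ha ?_ ?_ ?_
        · unfold mn at hα
          omega
        · intro s hs
          rw [mn_comm]
          exact hall s hs
        · rw [mn_comm]
          exact hβ
    · by_cases hab' : a = b
      · have h5 := h4 hab'
        rcases Nat.eq_zero_or_pos e with rfl | he'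
        · have := he0 rfl
          omega
        · have : e = 1 := by omega
          subst this
          omega
      · rcases Nat.eq_zero_or_pos e with rfl | he'
        · have := he0 rfl
          have : ¬ t ≤ m := fun hh => hcase ⟨hab', rfl, hh⟩
          omega
        · have : e = 1 := by omega
          subst this
          omega
  intro a b c d hab hcd hall
  rcases h.el_cases hab with ⟨ha, hb⟩ | ⟨t, e, he, hte, he0, heq⟩
  · rcases h.el_cases hcd with ⟨hc', hd'⟩ | hP
    · have : s((⟨a, ha⟩ : Out p l), ⟨b, hb⟩) = s(⟨c, hc'⟩, ⟨d, hd'⟩) := by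
        refine hS _ _ _ _ ?_ ?_ ?_
        · rcases hab with rfl | hab
          · exact Or.inl rfl
          · exact Or.inr hab
        · rcases hcd with rfl | hcd
          · exact Or.inl rfl
          · exact Or.inr hcd
        · intro s hs
          have k1 := hall s.1 (Or.inl ⟨_, hs, rfl⟩)
          rw [h.mn_out hG hc hd s.2 ha hb, h.mn_out hG hc hd s.2 hc' hd'] at k1
          exact k1
      have := congrArg (Sym2.map Subtype.val) this
      simpa using this
    · exact (mixed a b c d hab ha hb hP hall).elim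
  · rcases h.el_cases hcd with ⟨hc', hd'⟩ | ⟨t', e', he', hte', he0', heq'⟩
    · exact (mixed c d a b hcd hc' hd' ⟨t, e, he, hte, he0, heq⟩
        (fun s hs => (hall s hs).symm)).elim
    · rw [heq, heq']
      have h1 := hall (p 0) (Or.inl ⟨_, hu, rfl⟩)
      have h2 := hall (p m) (Or.inr rfl)
      have h3 := hall w.1 (Or.inl ⟨_, hwS, rfl⟩)
      rw [mn_congr heq, mn_congr heq', h.mn_p hG hc hd h.zero_mem he hte,
        h.mn_p hG hc hd h.zero_mem he' hte', hPu] at h1
      rw [mn_congr heq, mn_congr heq', h.mn_mid_p hG hc hd hml.le hm1 hm2 hte,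
        h.mn_mid_p hG hc hd hml.le hm1 hm2 hte'] at h2
      rw [mn_congr heq, mn_congr heq', h.mn_p hG hc hd w.2 he hte,
        h.mn_p hG hc hd w.2 he' hte'] at h3
      have := num_pp hD1 hDl hm he hte he' hte' hw h1 h2 h3
      rw [this.1, this.2]

end

end Pool.Agent.W5h10.MD
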