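import Pool.Agent.W5h10.MD.Leaf

set_option autoImplicit false

/-!
# If all threads are unique geodesics the branch vertices form a resolving set
-/

namespace Pool.Agent.W5h10.MD

open SimpleGraph

universe u

variable {V : Type u} {G : SimpleGraph V}

/-- truncated distance -/
noncomputable def td (G : SimpleGraph V) (k : ℕ) (s z : V) : ℕ :=
  open Classical in if G.Reachable s z then min (G.dist s z) k else k

lemma td_self (k : ℕ) (s : V) : td G k s s = 0 := by
  unfold td
  rw [if_pos (Reachable.refl _), SimpleGraph.dist_self]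
  exact Nat.zero_min _

lemma td_pos {k : ℕ} (hk : 0 < k) {s z : V} (h : s ≠ z) : 0 < td G k s z := by
  unfold td
  split_ifs with hr
  · have := hr.pos_dist_of_ne h
    omega
  · exact hk

lemma td_lip (k : ℕ) (s : V) {x y : V} (h : G.Adj x y) : td G k s y ≤ td G k s x + 1 := by
  unfold td
  split_ifs with h1 h2 h2
  · have := h2.dist_triangle_left (w := y)
    rw [SimpleGraph.dist_eq_one_iff_adj.2 h] at this
    omega
  · exact absurd (h1.trans h.symm.reachable) h2
  · exact absurd (h2.trans h.reachable) h1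
  · omega

lemma td_sum {k : ℕ} {r s : V} (hk : ∀ q : G.Walk r s, k ≤ q.length) (z : V) :
    k ≤ td G k r z + td G k s z := by
  unfold td
  split_ifs with h1 h2 h2
  · obtain ⟨q1, e1⟩ := h1.exists_walk_length_eq_dist
    obtain ⟨q2, e2⟩ := h2.exists_walk_length_eq_dist
    have := hk (q1.append q2.reverse)
    rw [Walk.length_append, Walk.length_reverse] at this
    omega
  all_goals omega

/-- a thread: an ear with both ends in `B`, its inner vertices outside `B`, and no way around it
which is not longer -/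
structure Thread (G : SimpleGraph V) (B : Set V) (p : ℕ → V) (l : ℕ) : Prop where
  ear : Ear G p l
  zero : p 0 ∈ B
  last : p l ∈ B
  inner : ∀ i, 0 < i → i < l → p i ∉ B
  short : ∀ q : (G.induce (Out p l)).Walk ⟨p 0, ear.zero_mem⟩ ⟨p l, ear.last_mem⟩, l < q.length

section

variable {B : Set V} {p : ℕ → V} {l : ℕ} (h : Thread G B p l) (hG : G.Connected)

include h hG

lemma Thread.lower0 (z : V) :
    ext p l (fun x => min (td (G.induce (Out p l)) (l + 1) ⟨p 0, h.ear.zero_mem⟩ x)
      (l + td (G.induce (Out p l)) (l + 1) ⟨p l, h.ear.last_mem⟩ x)) (fun i => i) z ≤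
      G.dist (p 0) z := by
  have hs : ∀ z, l + 1 ≤ td (G.induce (Out p l)) (l + 1) ⟨p 0, h.ear.zero_mem⟩ z +
      td (G.induce (Out p l)) (l + 1) ⟨p l, h.ear.last_mem⟩ z := td_sum (fun q => h.short q)
  have s0 := td_self (G := G.induce (Out p l)) (l + 1) ⟨p 0, h.ear.zero_mem⟩
  have sl := td_self (G := G.induce (Out p l)) (l + 1) ⟨p l, h.ear.last_mem⟩
  have h0 := hs ⟨p 0, h.ear.zero_mem⟩
  have hl := hs ⟨p l, h.ear.last_mem⟩
  refine le_trans (dist_pot hG _ (h.ear.ext_lip ?_ ?_ ?_ ?_) (p 0) z) ?_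
  · show min _ _ = _
    omega
  · show min _ _ = _
    omega
  · intro x y hxy
    have a1 := td_lip (l + 1) ⟨p 0, h.ear.zero_mem⟩ hxy
    have a2 := td_lip (l + 1) ⟨p l, h.ear.last_mem⟩ hxy
    omega
  · intro i hi
    omega
  · rw [ext_out h.ear.zero_mem, s0]
    omega

lemma Thread.lowerl (z : V) :
    ext p l (fun x => min (td (G.induce (Out p l)) (l + 1) ⟨p l, h.ear.last_mem⟩ x)
      (l + td (G.induce (Out p l)) (l + 1) ⟨p 0, h.ear.zero_mem⟩ x)) (fun i => l - i) z ≤
      G.dist (p l) z := by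
  have hs : ∀ z, l + 1 ≤ td (G.induce (Out p l)) (l + 1) ⟨p 0, h.ear.zero_mem⟩ z +
      td (G.induce (Out p l)) (l + 1) ⟨p l, h.ear.last_mem⟩ z := td_sum (fun q => h.short q)
  have s0 := td_self (G := G.induce (Out p l)) (l + 1) ⟨p 0, h.ear.zero_mem⟩
  have sl := td_self (G := G.induce (Out p l)) (l + 1) ⟨p l, h.ear.last_mem⟩
  have h0 := hs ⟨p 0, h.ear.zero_mem⟩
  have hl := hs ⟨p l, h.ear.last_mem⟩
  refine le_trans (dist_pot hG _ (h.ear.ext_lip ?_ ?_ ?_ ?_) (p l) z) ?_
  · show min _ _ = _
    omega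
  · show min _ _ = _
    omega
  · intro x y hxy
    have a1 := td_lip (l + 1) ⟨p 0, h.ear.zero_mem⟩ hxy
    have a2 := td_lip (l + 1) ⟨p l, h.ear.last_mem⟩ hxy
    omega
  · intro i hi
    omega
  · rw [ext_out h.ear.last_mem, sl]
    omega

omit hG in
lemma Thread.ends0 : (fun x : Out p l =>
    min (td (G.induce (Out p l)) (l + 1) ⟨p 0, h.ear.zero_mem⟩ x)
      (l + td (G.induce (Out p l)) (l + 1) ⟨p l, h.ear.last_mem⟩ x)) ⟨p 0, h.ear.zero_mem⟩ = 0 ∧
    (fun x : Out p l => min (td (G.induce (Out p l)) (l + 1) ⟨p 0, h.ear.zero_mem⟩ x)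
      (l + td (G.induce (Out p l)) (l + 1) ⟨p l, h.ear.last_mem⟩ x)) ⟨p l, h.ear.last_mem⟩ = l ∧
    (fun x : Out p l => min (td (G.induce (Out p l)) (l + 1) ⟨p l, h.ear.last_mem⟩ x)
      (l + td (G.induce (Out p l)) (l + 1) ⟨p 0, h.ear.zero_mem⟩ x)) ⟨p 0, h.ear.zero_mem⟩ = l ∧
    (fun x : Out p l => min (td (G.induce (Out p l)) (l + 1) ⟨p l, h.ear.last_mem⟩ x)
      (l + td (G.induce (Out p l)) (l + 1) ⟨p 0, h.ear.zero_mem⟩ x)) ⟨p l, h.ear.last_mem⟩ = 0 := by
  have hs : ∀ z, l + 1 ≤ td (G.induce (Out p l)) (l + 1) ⟨p 0, h.ear.zero_mem⟩ z +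
      td (G.induce (Out p l)) (l + 1) ⟨p l, h.ear.last_mem⟩ z := td_sum (fun q => h.short q)
  have s0 := td_self (G := G.induce (Out p l)) (l + 1) ⟨p 0, h.ear.zero_mem⟩
  have sl := td_self (G := G.induce (Out p l)) (l + 1) ⟨p l, h.ear.last_mem⟩
  have h0 := hs ⟨p 0, h.ear.zero_mem⟩
  have hl := hs ⟨p l, h.ear.last_mem⟩
  simp only
  omega

lemma Thread.dist0 {t : ℕ} (ht : t ≤ l) : G.dist (p 0) (p t) = t := by
  apply le_antisymm
  · have := h.ear.dist_le hG (Nat.zero_le t) ht
    omega
  · have := h.lower0 hG (p t)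
    rwa [h.ear.ext_p h.ends0.1 h.ends0.2.1 ht] at this

lemma Thread.distl {t : ℕ} (ht : t ≤ l) : G.dist (p l) (p t) = l - t := by
  apply le_antisymm
  · have := h.ear.dist_le hG ht le_rfl
    have e : G.dist (p t) (p l) = G.dist (p l) (p t) := SimpleGraph.dist_comm
    omega
  · have := h.lowerl hG (p t)
    obtain ⟨-, -, e1, e2⟩ := h.ends0
    rwa [h.ear.ext_p (e1.trans (Nat.sub_zero l).symm) (e2.trans (Nat.sub_self l).symm) ht] at this

lemma Thread.vert {z : V} (hz : z ∈ Out p l) (h0 : z ≠ p 0) (hl : z ≠ p l) :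
    l + 1 ≤ G.dist (p 0) z + G.dist (p l) z := by
  have a1 := h.lower0 hG z
  have a2 := h.lowerl hG z
  rw [ext_out hz] at a1 a2
  have a3 : l + 1 ≤ td (G.induce (Out p l)) (l + 1) ⟨p 0, h.ear.zero_mem⟩ ⟨z, hz⟩ +
      td (G.induce (Out p l)) (l + 1) ⟨p l, h.ear.last_mem⟩ ⟨z, hz⟩ :=
    td_sum (fun q => h.short q) _
  have a4 := td_pos (G := G.induce (Out p l)) (k := l + 1) (s := ⟨p 0, h.ear.zero_mem⟩)
    (z := ⟨z, hz⟩) (by omega) (fun he => h0 (congrArg Subtype.val he).symm)
  have a5 := td_pos (G := G.induce (Out p l)) (k := l + 1) (s := ⟨p l, h.ear.last_mem⟩)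
    (z := ⟨z, hz⟩) (by omega) (fun he => hl (congrArg Subtype.val he).symm)
  omega

lemma Thread.edge {a b : V} (ha : a ∈ Out p l) (hb : b ∈ Out p l) (hab : El G a b) :
    l ≤ mn G (p 0) a b + mn G (p l) a b := by
  have a1 := h.lower0 hG a
  have a2 := h.lowerl hG a
  have b1 := h.lower0 hG b
  have b2 := h.lowerl hG b
  rw [ext_out ha] at a1 a2
  rw [ext_out hb] at b1 b2
  have a3 : l + 1 ≤ td (G.induce (Out p l)) (l + 1) ⟨p 0, h.ear.zero_mem⟩ ⟨a, ha⟩ +
      td (G.induce (Out p l)) (l + 1) ⟨p l, h.ear.last_mem⟩ ⟨a, ha⟩ :=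
    td_sum (fun q => h.short q) _
  have b3 : l + 1 ≤ td (G.induce (Out p l)) (l + 1) ⟨p 0, h.ear.zero_mem⟩ ⟨b, hb⟩ +
      td (G.induce (Out p l)) (l + 1) ⟨p l, h.ear.last_mem⟩ ⟨b, hb⟩ :=
    td_sum (fun q => h.short q) _
  rcases hab with rfl | hab
  · unfold mn
    omega
  · have hab' : (G.induce (Out p l)).Adj ⟨a, ha⟩ ⟨b, hb⟩ := hab
    have c1 := td_lip (l + 1) ⟨p 0, h.ear.zero_mem⟩ hab'
    have c2 := td_lip (l + 1) ⟨p 0, h.ear.zero_mem⟩ hab'.symm
    have c3 := td_lip (l + 1) ⟨p l, h.ear.last_mem⟩ hab'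
    have c4 := td_lip (l + 1) ⟨p l, h.ear.last_mem⟩ hab'.symm
    have key : ∀ A B A' B' x y x' y' : ℕ, min A (l + B) ≤ x → min B (l + A) ≤ y →
        min A' (l + B') ≤ x' → min B' (l + A') ≤ y' → l + 1 ≤ A + B → l + 1 ≤ A' + B' →
        A' ≤ A + 1 → A ≤ A' + 1 → B' ≤ B + 1 → B ≤ B' + 1 →
        l ≤ min x x' + min y y' := by
      intro A B A' B' x y x' y'
      omega
    exact key _ _ _ _ _ _ _ _ a1 a2 b1 b2 a3 b3 c1 c2 c3 c4

lemma Thread.mn0 {t e : ℕ} (ht : t + e ≤ l) : mn G (p 0) (p t) (p (t + e)) = t := by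
  unfold mn
  rw [h.dist0 hG (by omega), h.dist0 hG ht]
  omega

lemma Thread.mnl {t e : ℕ} (ht : t + e ≤ l) : mn G (p l) (p t) (p (t + e)) = l - t - e := by
  unfold mn
  rw [h.distl hG (by omega), h.distl hG ht]
  omega

end

/-- **The final case.** -/
theorem final_res (hG : G.Connected) (B : Set V)
    (hB : ∀ x, x ∉ B → ∃ p l t, Thread G B p l ∧ 0 < t ∧ t < l ∧ p t = x) : Res G B := by
  -- a thread element determines everything
  have edges : ∀ (p : ℕ → V) (l t : ℕ), Thread G B p l → t + 1 ≤ l → ∀ c d, El G c d →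
      (∀ s ∈ B, mn G s (p t) (p (t + 1)) = mn G s c d) → s(p t, p (t + 1)) = s(c, d) := by
    intro p l t h ht c d hcd hall
    have h0 := hall _ h.zero
    have hl := hall _ h.last
    rw [h.mn0 hG ht] at h0
    rw [h.mnl hG ht] at hl
    rcases h.ear.el_cases hcd with ⟨hc, hd⟩ | ⟨t', e', he', hte', -, heq⟩
    · have := h.edge hG hc hd hcd
      omega
    · rw [mn_congr heq, h.mn0 hG hte'] at h0
      rw [mn_congr heq, h.mnl hG hte'] at hl
      have e1 : t = t' := h0
      have e2 : e' = 1 := by omega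
      rw [heq, ← e1, e2]
  -- branch vertices
  have branch : ∀ x ∈ B, ∀ c d, El G c d → (∀ s ∈ B, mn G s x x = mn G s c d) →
      s(x, x) = s(c, d) := by
    intro x hx c d hcd hall
    have h0 := hall x hx
    rw [mn_left] at h0
    have key : ∀ z, G.Adj x z → (∀ s ∈ B, mn G s x x = mn G s x z) → False := by
      intro z hxz hz
      by_cases hzB : z ∈ B
      · have := hz z hzB
        rw [mn_right] at this
        rcases mn_zero hG this with h1 | h1
        · exact hxz.ne h1.symm
        · exact hxz.ne h1.symm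
      · obtain ⟨p, l, t, h, ht0, htl, rfl⟩ := hB z hzB
        rcases h.ear.nbr t ht0 htl x hxz.symm with rfl | rfl
        · have ht1 : t - 1 = 0 := by
            by_contra hcon
            exact h.inner (t - 1) (by omega) (by omega) hx
          have ht1' : t = 1 := by omega
          subst ht1'
          have := hz _ h.last
          unfold mn at this
          rw [h.distl hG (by omega), h.distl hG (by omega)] at this
          omega
        · have ht1 : t + 1 = l := by
            by_contra hcon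
            exact h.inner (t + 1) (by omega) (by omega) hx
          have := hz _ h.zero
          unfold mn at this
          rw [h.dist0 hG (by omega), h.dist0 hG (by omega)] at this
          omega
    rcases hcd with rfl | hcd
    · rcases mn_zero hG h0.symm with rfl | rfl <;> rfl
    · exfalso
      rcases mn_zero hG h0.symm with rfl | rfl
      · exact key d hcd hall
      · refine key c hcd.symm (fun s hs => ?_)
        rw [mn_comm G s x c]
        exact hall s hs
  -- edges
  have allEdges : ∀ a b, G.Adj a b → ∀ c d, El G c d → (∀ s ∈ B, mn G s a b = mn G s c d) →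
      s(a, b) = s(c, d) := by
    intro a b hab c d hcd hall
    by_cases haB : a ∈ B
    · by_cases hbB : b ∈ B
      · have h1 := hall a haB
        have h2 := hall b hbB
        rw [mn_left] at h1
        rw [mn_right] at h2
        have k1 := mn_zero hG h1.symm
        have k2 := mn_zero hG h2.symm
        have k3 := hab.ne
        rw [Sym2.eq_iff]
        clear h1 h2 hall hcd haB hbB hab
        grind
      · obtain ⟨p, l, t, h, ht0, htl, rfl⟩ := hB b hbB
        rcases h.ear.nbr t ht0 htl a hab.symm with rfl | rfl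
        · have e : t - 1 + 1 = t := by omega
          have := edges p l (t - 1) h (by omega) c d hcd
          rw [e] at this
          exact this hall
        · rw [Sym2.eq_swap]
          refine edges p l t h (by omega) c d hcd (fun s hs => ?_)
          rw [mn_comm]
          exact hall s hs
    · obtain ⟨p, l, t, h, ht0, htl, rfl⟩ := hB a haB
      rcases h.ear.nbr t ht0 htl b hab with rfl | rfl
      · have e : t - 1 + 1 = t := by omega
        rw [Sym2.eq_swap]
        have := edges p l (t - 1) h (by omega) c d hcd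
        rw [e] at this
        refine this (fun s hs => ?_)
        rw [mn_comm]
        exact hall s hs
      · exact edges p l t h (by omega) c d hcd hall
  intro a b c d hab hcd hall
  rcases hab with rfl | hab
  · rcases hcd with rfl | hcd'
    · -- two vertices
      by_cases haB : a ∈ B
      · exact branch a haB _ _ (Or.inl rfl) hall
      · by_cases hcB : c ∈ B
        · exact (branch c hcB _ _ (Or.inl rfl) (fun s hs => (hall s hs).symm)).symm
        · obtain ⟨p, l, t, h, ht0, htl, rfl⟩ := hB a haB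
          have h0 := hall _ h.zero
          have hl := hall _ h.last
          unfold mn at h0 hl
          rw [min_self, min_self, h.dist0 hG htl.le] at h0
          rw [min_self, min_self, h.distl hG htl.le] at hl
          by_cases hc : c ∈ Out p l
          · have := h.vert hG hc (fun he => hcB (he ▸ h.zero)) (fun he => hcB (he ▸ h.last))
            omega
          · obtain ⟨i, h1, h2, rfl⟩ := not_mem_Out hc
            rw [h.dist0 hG h2.le] at h0
            rw [h0]
    · exact (allEdges c d hcd' _ _ (Or.inl rfl) (fun s hs => (hall s hs).symm)).symm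
  · exact allEdges a b hab c d hcd hall

end Pool.Agent.W5h10.MD
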