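import Pool.Agent.W5h10.MD.EarRes

set_option autoImplicit false

/-!
# Adding a leaf: the landmark at the neighbour of the leaf is moved to the leaf
-/

namespace Pool.Agent.W5h10.MD

open SimpleGraph

universe u

variable {V : Type u} {G : SimpleGraph V}

section

variable {w v : V} (hG : G.Connected) (hw : ∀ z, G.Adj w z ↔ z = v) (hv : v ≠ w)
  (hc : (G.induce {z : V | z ≠ w}).Connected)

include hG hw hv hc

lemma leaf_dist {s z : V} (hs : s ≠ w) (hz : z ≠ w) :
    G.dist s z = (G.induce {z : V | z ≠ w}).dist ⟨s, hs⟩ ⟨z, hz⟩ := by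
  apply le_antisymm
  · obtain ⟨q, hq⟩ := hc.exists_walk_length_eq_dist ⟨s, hs⟩ ⟨z, hz⟩
    rw [← hq, ← Walk.length_map (Embedding.induce {z : V | z ≠ w}).toHom q]
    exact G.dist_le _
  · classical
    set f : V → ℕ := fun z => if h : z ≠ w then (G.induce {z : V | z ≠ w}).dist ⟨s, hs⟩ ⟨z, h⟩
      else (G.induce {z : V | z ≠ w}).dist ⟨s, hs⟩ ⟨v, hv⟩ + 1 with hf
    have h1 : ∀ x (hx : x ≠ w), f x = (G.induce {z : V | z ≠ w}).dist ⟨s, hs⟩ ⟨x, hx⟩ := by
      intro x hx
      simp only [hf]
      rw [dif_pos hx]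
    have h2 : f w = (G.induce {z : V | z ≠ w}).dist ⟨s, hs⟩ ⟨v, hv⟩ + 1 := by
      simp only [hf]
      rw [dif_neg (by simp)]
    have key := dist_pot hG f ?_ s z
    · rw [h1 s hs, h1 z hz, SimpleGraph.dist_self, zero_add] at key
      exact key
    · intro x y hxy
      by_cases hx : x = w
      · subst hx
        have hy := (hw y).1 hxy
        subst hy
        rw [h1 _ hv, h2]
        omega
      · by_cases hy : y = w
        · subst hy
          have hx' := (hw x).1 hxy.symm
          subst hx'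
          rw [h1 _ hv, h2]
        · rw [h1 x hx, h1 y hy]
          exact dist_adj_le hc _ hxy

omit hv hc in
lemma leaf_dist_w {z : V} (hz : z ≠ w) : G.dist w z = G.dist v z + 1 := by
  obtain ⟨y, hy1, hy2⟩ := exists_closer hG hz.symm
  have := (hw y).1 hy1
  subst this
  exact hy2.symm

/-- **The leaf step.** -/
theorem leaf_res (S : Set {z : V | z ≠ w}) (hS : Res (G.induce {z : V | z ≠ w}) S)
    (hvS : ⟨v, hv⟩ ∈ S) (hz : ∃ z, z ≠ w ∧ G.Adj v z) :
    Res G (Subtype.val '' (S \ {⟨v, hv⟩}) ∪ {w}) := by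
  -- another landmark
  obtain ⟨r, hrS, hr⟩ : ∃ r ∈ S, r ≠ ⟨v, hv⟩ := by
    by_contra hcon
    push Not at hcon
    obtain ⟨z, hz1, hz2⟩ := hz
    have := hS ⟨v, hv⟩ ⟨v, hv⟩ ⟨v, hv⟩ ⟨z, hz1⟩ (Or.inl rfl) (Or.inr hz2) (by
      intro s hs
      rw [hcon s hs, mn_left, mn_left])
    rcases Sym2.eq_iff.1 this with ⟨_, h2⟩ | ⟨h2, _⟩
    · exact hz2.ne (congrArg Subtype.val h2)
    · exact hz2.ne (congrArg Subtype.val h2)
  have hmn : ∀ s a b, ∀ hs : s ≠ w, ∀ ha : a ≠ w, ∀ hb : b ≠ w,
      mn G s a b = mn (G.induce {z : V | z ≠ w}) ⟨s, hs⟩ ⟨a, ha⟩ ⟨b, hb⟩ := by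
    intro s a b hs ha hb
    unfold mn
    rw [leaf_dist hG hw hv hc hs ha, leaf_dist hG hw hv hc hs hb]
  have hmnw : ∀ a b, a ≠ w → b ≠ w → mn G w a b = mn G v a b + 1 := by
    intro a b ha hb
    unfold mn
    rw [leaf_dist_w hG hw ha, leaf_dist_w hG hw hb]
    omega
  have hin : ∀ a b, El G a b → (a = w ∨ b = w) → s(a, b) = s(w, w) ∨ s(a, b) = s(w, v) := by
    rintro a b (rfl | hab) (rfl | rfl)
    · exact Or.inl rfl
    · exact Or.inl rfl
    · have := (hw b).1 hab
      subst this
      exact Or.inr rfl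
    · have := (hw a).1 hab.symm
      subst this
      exact Or.inr Sym2.eq_swap
  have hdiff : mn G r.1 w w ≠ mn G r.1 w v := by
    have h1 := leaf_dist_w hG hw r.2
    have e1 : G.dist r.1 w = G.dist w r.1 := SimpleGraph.dist_comm
    have e2 : G.dist r.1 v = G.dist v r.1 := SimpleGraph.dist_comm
    unfold mn
    omega
  intro a b c d hab hcd hall
  have hW := hall w (Or.inr rfl)
  have hR := hall r.1 (Or.inl ⟨r, ⟨hrS, hr⟩, rfl⟩)
  by_cases h1 : a = w ∨ b = w
  · have h2 : c = w ∨ d = w := by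
      have : mn G w c d = 0 := by
        rw [← hW]
        rcases h1 with rfl | rfl
        · exact mn_left _ _ _
        · exact mn_right _ _ _
      rcases mn_zero hG this with h | h
      · exact Or.inl h.symm
      · exact Or.inr h.symm
    rcases hin a b hab h1 with e1 | e1 <;> rcases hin c d hcd h2 with e2 | e2
    · rw [e1, e2]
    · rw [mn_congr e1, mn_congr e2] at hR
      exact absurd hR hdiff
    · rw [mn_congr e1, mn_congr e2] at hR
      exact absurd hR.symm hdiff
    · rw [e1, e2]
  · push Not at h1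
    by_cases h2 : c = w ∨ d = w
    · exfalso
      have : mn G w a b = 0 := by
        rw [hW]
        rcases h2 with rfl | rfl
        · exact mn_left _ _ _
        · exact mn_right _ _ _
      rcases mn_zero hG this with h | h
      · exact h1.1 h.symm
      · exact h1.2 h.symm
    · push Not at h2
      have : s((⟨a, h1.1⟩ : {z : V | z ≠ w}), ⟨b, h1.2⟩) = s(⟨c, h2.1⟩, ⟨d, h2.2⟩) := by
        refine hS _ _ _ _ ?_ ?_ ?_
        · rcases hab with rfl | hab
          · exact Or.inl rfl
          · exact Or.inr hab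
        · rcases hcd with rfl | hcd
          · exact Or.inl rfl
          · exact Or.inr hcd
        · intro s hs
          by_cases hsv : s = ⟨v, hv⟩
          · subst hsv
            rw [← hmn v a b hv h1.1 h1.2, ← hmn v c d hv h2.1 h2.2]
            rw [hmnw a b h1.1 h1.2, hmnw c d h2.1 h2.2] at hW
            omega
          · have := hall s.1 (Or.inl ⟨s, ⟨hs, hsv⟩, rfl⟩)
            rw [hmn s.1 a b s.2 h1.1 h1.2, hmn s.1 c d s.2 h2.1 h2.2] at this
            exact this
      have := congrArg (Sym2.map Subtype.val) this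
      simpa using this

end

/-- all vertices together resolve everything -/
lemma res_univ (hG : G.Connected) : Res G Set.univ := by
  intro a b c d hab hcd hall
  have h1 := hall a trivial
  have h2 := hall b trivial
  have h3 := hall c trivial
  have h4 := hall d trivial
  rw [mn_left] at h1
  rw [mn_right] at h2
  rw [mn_left] at h3
  rw [mn_right] at h4
  have k1 := mn_zero hG h1.symm
  have k2 := mn_zero hG h2.symm
  have k3 := mn_zero hG h3
  have k4 := mn_zero hG h4
  rw [Sym2.eq_iff]
  clear h1 h2 h3 h4 hall hab hcd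
  grind

/-- a leaf belongs to every resolving set (if there is another vertex) -/
lemma leaf_mem (hG : G.Connected) {w v : V} (hw : ∀ z, G.Adj w z ↔ z = v) (S : Set V)
    (hS : Res G S) : w ∈ S := by
  by_contra hcon
  have hadj : G.Adj w v := (hw v).2 rfl
  have := hS v v v w (Or.inl rfl) (Or.inr hadj.symm) (by
    intro s hs
    have hsw : s ≠ w := fun h => hcon (h ▸ hs)
    have h1 := leaf_dist_w hG hw hsw
    have e1 : G.dist s w = G.dist w s := SimpleGraph.dist_comm
    have e2 : G.dist s v = G.dist v s := SimpleGraph.dist_comm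
    unfold mn
    omega)
  rcases Sym2.eq_iff.1 this with ⟨_, h2⟩ | ⟨h2, _⟩
  · exact hadj.ne h2.symm
  · exact hadj.ne h2.symm

end Pool.Agent.W5h10.MD
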