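import Pool.Agent.W5h10.MD.Struct

set_option autoImplicit false

/-!
# The induction
-/

namespace Pool.Agent.W5h10.MD

open SimpleGraph

universe u

variable {V : Type u} {G : SimpleGraph V}

/-- the sum of `deg v - 2` over the vertices of degree at least two -/
noncomputable def bt (G : SimpleGraph V) [Fintype V] : ℕ := ∑ v, (dgr G v - 2)

lemma dgr_induce [Finite V] (W : Set V) (z : W) :
    dgr (G.induce W) z ≤ dgr G z.1 ∧
      ((∃ y, y ∉ W ∧ G.Adj z.1 y) → dgr (G.induce W) z + 1 ≤ dgr G z.1) := by
  have hinj : (Subtype.val '' ((G.induce W).neighborSet z)).ncard = dgr (G.induce W) z :=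
    Set.ncard_image_of_injective _ Subtype.val_injective
  have hsub : Subtype.val '' ((G.induce W).neighborSet z) ⊆ G.neighborSet z.1 := by
    rintro _ ⟨y, hy, rfl⟩
    exact hy
  refine ⟨?_, ?_⟩
  · rw [← hinj]
    exact Set.ncard_le_ncard hsub (Set.toFinite _)
  · rintro ⟨y, hy, hadj⟩
    rw [← hinj]
    have h1 : y ∉ Subtype.val '' ((G.induce W).neighborSet z) := by
      rintro ⟨x, _, rfl⟩
      exact hy x.2
    rw [← Set.ncard_insert_of_notMem h1 (Set.toFinite _)]
    apply Set.ncard_le_ncard _ (Set.toFinite _)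
    intro x hx
    rcases hx with rfl | hx
    · exact hadj
    · exact hsub hx

lemma bt_induce [Fintype V] (W : Set V) [Fintype W] (E : Finset W)
    (hE : ∀ z ∈ E, 3 ≤ dgr G z.1 ∧ ∃ y, y ∉ W ∧ G.Adj z.1 y) :
    bt (G.induce W) + E.card ≤ bt G := by
  classical
  unfold bt
  have h1 : E.card = ∑ z : W, if z ∈ E then 1 else 0 := by
    rw [Finset.sum_ite_mem, Finset.univ_inter, Finset.card_eq_sum_ones]
  rw [h1, ← Finset.sum_add_distrib]
  have h2 : ∑ z : W, ((dgr (G.induce W) z - 2) + if z ∈ E then 1 else 0) ≤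
      ∑ z : W, (dgr G z.1 - 2) := by
    apply Finset.sum_le_sum
    intro z _
    obtain ⟨h3, h4⟩ := dgr_induce (G := G) W z
    split_ifs with hz
    · obtain ⟨h5, h6⟩ := hE z hz
      have := h4 h6
      omega
    · omega
  refine h2.trans ?_
  have h3 : ∑ z : W, (dgr G z.1 - 2) = ∑ v ∈ Finset.univ.map (Function.Embedding.subtype (· ∈ W)),
      (dgr G v - 2) := by
    rw [Finset.sum_map]
    rfl
  rw [h3]
  exact Finset.sum_le_sum_of_subset (Finset.subset_univ _)

lemma dgr_pos [Fintype V] (hG : G.Connected) (h : 2 ≤ Fintype.card V) (v : V) : 1 ≤ dgr G v := by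
  have : Nontrivial V := Fintype.one_lt_card_iff_nontrivial.1 (by omega)
  obtain ⟨w, hw⟩ := exists_ne v
  obtain ⟨z, hz, _⟩ := exists_closer hG hw.symm
  unfold dgr
  exact (Set.ncard_pos (Set.toFinite _)).2 ⟨z, hz⟩

/-- the statement proved by induction -/
def Stm (G : SimpleGraph V) [Fintype V] : Prop :=
  ((∀ v, dgr G v = 2) → ∀ v, ∃ S : Finset V, v ∈ S ∧ S.card ≤ 3 ∧ Res G S) ∧
    ((∃ v, dgr G v ≠ 2) → ∃ S : Finset V, S.card ≤ 2 + bt G ∧ Res G S)

/-- using the statement for a smaller graph and a vertex which is lifted out of it -/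
lemma Stm.use [Fintype V] (W : Set V) [Fintype W] (hc : (G.induce W).Connected)
    (hcard : 2 ≤ Fintype.card W) (hst : Stm (G.induce W)) (v : V) (hv : v ∈ W)
    (hout : ∃ y, y ∉ W ∧ G.Adj v y) :
    ∃ S : Finset W, ⟨v, hv⟩ ∈ S ∧ Res (G.induce W) S ∧ S.card ≤ 3 + bt (G.induce W) ∧
      (dgr G v = 2 → S.card ≤ 2 + bt (G.induce W)) := by
  classical
  obtain ⟨hA, hB⟩ := hst
  by_cases h2 : ∀ x, dgr (G.induce W) x = 2
  · obtain ⟨S, h3, h4, h5⟩ := hA h2 ⟨v, hv⟩
    refine ⟨S, h3, h5, by omega, fun hd => ?_⟩
    have h6 := (dgr_induce (G := G) W ⟨v, hv⟩).2 hout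
    have h7 := h2 ⟨v, hv⟩
    simp only at h6
    omega
  · push Not at h2
    obtain ⟨S, h3, h4⟩ := hB h2
    refine ⟨insert ⟨v, hv⟩ S, Finset.mem_insert_self _ _, ?_, ?_, ?_⟩
    · exact h4.mono (by simp)
    · exact (Finset.card_insert_le _ _).trans (by omega)
    · intro hd
      have h6 := (dgr_induce (G := G) W ⟨v, hv⟩).2 hout
      have h7 := dgr_pos hc hcard ⟨v, hv⟩
      simp only at h6
      obtain ⟨y, hy⟩ := dgr_one (G := G.induce W) (w := ⟨v, hv⟩) (by omega)
      have h8 := leaf_mem hc hy _ h4
      rw [Finset.insert_eq_of_mem (by exact_mod_cast h8)]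
      exact h3

/-- the step for a good ear -/
lemma ear_step [Fintype V] (hG : G.Connected) {p : ℕ → V} {l : ℕ} (h : GoodEar G p l)
    (IH : ∀ (W : Set V) [Fintype W], Fintype.card W < Fintype.card V → 2 ≤ Fintype.card W →
      (G.induce W).Connected → Stm (G.induce W)) :
    ∃ S : Finset V, p 0 ∈ S ∧ Res G S ∧
      ∃ W : Set V, ∃ _ : Fintype W, bt (G.induce W) + (if 3 ≤ dgr G (p l) then 1 else 0) +
        (if 3 ≤ dgr G (p 0) then 1 else 0) ≤ bt G ∧
      S.card ≤ 4 + bt (G.induce W) ∧ (dgr G (p 0) = 2 → S.card ≤ 3 + bt (G.induce W)) := by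
  classical
  have he := h.1
  have hl2 := he.two
  obtain ⟨q, hq⟩ := h.induce
  have hc := he.connected hG q.reachable
  have hd := ((G.induce (Out p l)).dist_le q).trans hq
  have hne : p 0 ≠ p l := fun hh => by
    have := he.inj 0 l (by omega) le_rfl hh
    omega
  have hcardlt : Fintype.card (Out p l) < Fintype.card V := by
    apply Fintype.card_subtype_lt (x := p 1)
    exact he.not_mem (by omega) (by omega)
  have hcard2 : 2 ≤ Fintype.card (Out p l) := by
    have : 1 < Fintype.card (Out p l) := by
      rw [Fintype.one_lt_card_iff]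
      exact ⟨⟨p 0, he.zero_mem⟩, ⟨p l, he.last_mem⟩, fun hh => hne (congrArg Subtype.val hh)⟩
    omega
  have hst := IH (Out p l) hcardlt hcard2 hc
  have hout0 : ∃ y, y ∉ Out p l ∧ G.Adj (p 0) y :=
    ⟨p 1, he.not_mem (by omega) (by omega), he.adj 0 (by omega)⟩
  have houtl : ∃ y, y ∉ Out p l ∧ G.Adj (p l) y := by
    refine ⟨p (l - 1), he.not_mem (by omega) (by omega), ?_⟩
    have := (he.adj (l - 1) (by omega)).symm
    rwa [show l - 1 + 1 = l by omega] at this
  obtain ⟨S, h1, h2, h3, h4⟩ := hst.use (Out p l) hc hcard2 (p 0) he.zero_mem hout0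
  obtain ⟨m, _, _, hres⟩ := he.res hG hc hd S h2 h1
  refine ⟨S.map (Function.Embedding.subtype _) ∪ {p m}, ?_, ?_, Out p l, inferInstance, ?_, ?_, ?_⟩
  · apply Finset.mem_union_left
    rw [Finset.mem_map]
    exact ⟨_, h1, rfl⟩
  · refine hres.mono ?_
    intro x hx
    rcases hx with ⟨y, hy, rfl⟩ | hx
    · rw [Finset.mem_coe]
      apply Finset.mem_union_left
      rw [Finset.mem_map]
      exact ⟨y, hy, rfl⟩
    · rw [Finset.mem_coe]
      apply Finset.mem_union_right
      rw [Finset.mem_singleton]
      exact hx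
  · have hb := bt_induce (G := G) (Out p l)
      ((if 3 ≤ dgr G (p l) then {⟨p l, he.last_mem⟩} else ∅) ∪
        (if 3 ≤ dgr G (p 0) then {⟨p 0, he.zero_mem⟩} else ∅)) ?_
    · have hne' : (⟨p l, he.last_mem⟩ : Out p l) ≠ ⟨p 0, he.zero_mem⟩ :=
        fun hh => hne (congrArg Subtype.val hh).symm
      by_cases c1 : 3 ≤ dgr G (p l) <;> by_cases c2 : 3 ≤ dgr G (p 0) <;>
        simp only [c1, c2, if_true, if_false, Finset.empty_union, Finset.union_empty,
          Finset.card_singleton, Finset.card_empty] at hb ⊢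
      · rw [Finset.card_union_of_disjoint (by simpa using hne'), Finset.card_singleton,
          Finset.card_singleton] at hb
        omega
      all_goals omega
    · intro z hz
      rw [Finset.mem_union] at hz
      rcases hz with hz | hz
      · split_ifs at hz with hc1
        · rw [Finset.mem_singleton] at hz
          subst hz
          exact ⟨hc1, houtl⟩
        · exact absurd hz (Finset.notMem_empty _)
      · split_ifs at hz with hc1
        · rw [Finset.mem_singleton] at hz
          subst hz
          exact ⟨hc1, hout0⟩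
        · exact absurd hz (Finset.notMem_empty _)
  · refine (Finset.card_union_le _ _).trans ?_
    rw [Finset.card_map, Finset.card_singleton]
    omega
  · intro hd2
    refine (Finset.card_union_le _ _).trans ?_
    rw [Finset.card_map, Finset.card_singleton]
    have := h4 hd2
    omega

/-- the step for a leaf -/
lemma leaf_step [Fintype V] (hG : G.Connected) (h3 : 3 ≤ Fintype.card V) {w : V}
    (hw : dgr G w = 1)
    (IH : ∀ (W : Set V) [Fintype W], Fintype.card W < Fintype.card V → 2 ≤ Fintype.card W →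
      (G.induce W).Connected → Stm (G.induce W)) :
    ∃ S : Finset V, S.card ≤ 2 + bt G ∧ Res G S := by
  classical
  obtain ⟨v, hv⟩ := dgr_one hw
  have hadj : G.Adj w v := (hv v).2 rfl
  have hvw : v ≠ w := hadj.ne.symm
  have hc : (G.induce {z : V | z ≠ w}).Connected := by
    refine (connected_iff _).2 ⟨hG.preconnected.induce_of_degree_eq_one ?_, ⟨⟨v, hvw⟩⟩⟩
    intro x hx
    have : x = w := by simpa using hx
    subst this
    intro a ha b hb
    rw [(hv a).1 ha, (hv b).1 hb]
  have hcard : Fintype.card {z : V | z ≠ w} + 1 = Fintype.card V := by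
    have := Fintype.card_subtype_compl (fun z : V => z = w)
    have h1 : Fintype.card {z : V // z = w} = 1 := Fintype.card_unique
    have h2 : Fintype.card {z : V | z ≠ w} = Fintype.card {z : V // ¬ z = w} :=
      Fintype.card_congr (Equiv.refl _)
    omega
  have hst := IH {z : V | z ≠ w} (by omega) (by omega) hc
  obtain ⟨S, k1, k2, k3, k4⟩ := hst.use _ hc (by omega) v hvw ⟨w, by simp, hadj.symm⟩
  have hz : ∃ z, z ≠ w ∧ G.Adj v z := by
    have h1 := dgr_pos hc (by omega) ⟨v, hvw⟩
    unfold dgr at h1
    obtain ⟨z, hz⟩ := (Set.ncard_pos (Set.toFinite _)).1 h1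
    exact ⟨z.1, z.2, hz⟩
  have hres := leaf_res hG hv hvw hc S k2 k1 hz
  have hd2 : 2 ≤ dgr G v := by
    have h1 := dgr_pos hc (by omega) ⟨v, hvw⟩
    have h2 := (dgr_induce (G := G) {z : V | z ≠ w} ⟨v, hvw⟩).2 ⟨w, by simp, hadj.symm⟩
    simp only at h2
    omega
  have hb := bt_induce (G := G) {z : V | z ≠ w} (if 3 ≤ dgr G v then {⟨v, hvw⟩} else ∅) (by
    intro z hz
    split_ifs at hz with hc1
    · rw [Finset.mem_singleton] at hz
      subst hz
      exact ⟨hc1, w, by simp, hadj.symm⟩
    · exact absurd hz (Finset.notMem_empty _))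
  refine ⟨(S.erase ⟨v, hvw⟩).map (Function.Embedding.subtype _) ∪ {w}, ?_, ?_⟩
  · refine (Finset.card_union_le _ _).trans ?_
    rw [Finset.card_map, Finset.card_singleton, Finset.card_erase_of_mem k1]
    have : 0 < S.card := Finset.card_pos.2 ⟨_, k1⟩
    by_cases hd3 : 3 ≤ dgr G v
    · rw [if_pos hd3, Finset.card_singleton] at hb
      omega
    · have := k4 (by omega)
      omega
  · refine hres.mono ?_
    intro x hx
    rw [Finset.mem_coe]
    rcases hx with ⟨y, ⟨hy1, hy2⟩, rfl⟩ | hx
    · apply Finset.mem_union_left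
      rw [Finset.mem_map]
      exact ⟨y, Finset.mem_erase.2 ⟨hy2, hy1⟩, rfl⟩
    · apply Finset.mem_union_right
      rw [Finset.mem_singleton]
      exact hx

theorem main (n : ℕ) : ∀ (V : Type u) [Fintype V] (G : SimpleGraph V), Fintype.card V = n →
    2 ≤ n → G.Connected → Stm G := by
  induction n using Nat.strong_induction_on with
  | _ n ih =>
    intro V _ G hn h2 hG
    have IH : ∀ (W : Set V) [Fintype W], Fintype.card W < Fintype.card V → 2 ≤ Fintype.card W →
        (G.induce W).Connected → Stm (G.induce W) := by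
      intro W _ h1 h3 h4
      exact ih (Fintype.card W) (by omega) W (G.induce W) rfl h3 h4
    refine ⟨?_, ?_⟩
    · intro hreg v
      obtain ⟨p, l, hg, hv⟩ := exists_good_cycle hreg v
      obtain ⟨S, h3, h4, W, _, h5, h6, h7⟩ := ear_step hG hg IH
      have hb : bt G = 0 := by
        unfold bt
        apply Finset.sum_eq_zero
        intro x _
        have := hreg x
        omega
      have := h7 (hreg _)
      refine ⟨S, hv ▸ h3, by omega, h4⟩
    · rintro ⟨v0, hv0⟩
      by_cases hleaf : ∃ w, dgr G w = 1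
      · obtain ⟨w, hw⟩ := hleaf
        rcases Nat.lt_or_ge n 3 with hn3 | hn3
        · refine ⟨Finset.univ, ?_, ?_⟩
          · rw [Finset.card_univ]
            omega
          · rw [Finset.coe_univ]
            exact res_univ hG
        · exact leaf_step hG (by omega) hw IH
      · push Not at hleaf
        have hmin : ∀ v, 2 ≤ dgr G v := by
          intro v
          have h1 := dgr_pos hG (by omega) v
          have h3 := hleaf v
          omega
        have hbr : ∃ b, 3 ≤ dgr G b := ⟨v0, by have := hmin v0; omega⟩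
        by_cases hgood : ∃ p l, GoodEar G p l ∧ 3 ≤ dgr G (p l)
        · obtain ⟨p, l, hg, hl3⟩ := hgood
          obtain ⟨S, h3, h4, W, _, h5, h6, h7⟩ := ear_step hG hg IH
          refine ⟨S, ?_, h4⟩
          rw [if_pos hl3] at h5
          by_cases hd : 3 ≤ dgr G (p 0)
          · rw [if_pos hd] at h5
            omega
          · have := hmin (p 0)
            have := h7 (by omega)
            omega
        · push Not at hgood
          classical
          refine ⟨Finset.univ.filter fun v => 3 ≤ dgr G v, ?_, ?_⟩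
          · have : (Finset.univ.filter fun v => 3 ≤ dgr G v).card ≤ bt G := by
              unfold bt
              rw [Finset.card_eq_sum_ones, Finset.sum_filter]
              apply Finset.sum_le_sum
              intro v _
              split_ifs with h
              · omega
              · omega
            omega
          · have := final_res hG {v | 3 ≤ dgr G v} (by
              intro x hx
              have hx' : ¬ 3 ≤ dgr G x := hx
              have := hmin x
              exact exists_thread hG hmin hbr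
                (fun p l hg => Nat.not_le.2 (hgood p l hg)) x (by omega))
            refine this.mono ?_
            intro x hx
            simpa using hx

end Pool.Agent.W5h10.MD
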