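import Pool.Agent.W5h10.MD.Final

set_option autoImplicit false

/-!
# Existence of good ears and threads
-/

namespace Pool.Agent.W5h10.MD

open SimpleGraph

universe u

variable {V : Type u} {G : SimpleGraph V}

/-- the number of neighbours -/
noncomputable def dgr (G : SimpleGraph V) (v : V) : ℕ := (G.neighborSet v).ncard

lemma dgr_one {w : V} (h : dgr G w = 1) : ∃ v, ∀ z, G.Adj w z ↔ z = v := by
  obtain ⟨v, hv⟩ := Set.ncard_eq_one.1 h
  refine ⟨v, fun z => ?_⟩
  rw [← SimpleGraph.mem_neighborSet, hv, Set.mem_singleton_iff]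

lemma dgr_two {w : V} (h : dgr G w = 2) : ∃ x y, x ≠ y ∧ ∀ z, G.Adj w z ↔ z = x ∨ z = y := by
  obtain ⟨x, y, hxy, hv⟩ := Set.ncard_eq_two.1 h
  refine ⟨x, y, hxy, fun z => ?_⟩
  rw [← SimpleGraph.mem_neighborSet, hv, Set.mem_insert_iff, Set.mem_singleton_iff]

/-- an ear together with a way around it that is not longer -/
def GoodEar (G : SimpleGraph V) (p : ℕ → V) (l : ℕ) : Prop :=
  Ear G p l ∧ ∃ q : G.Walk (p 0) (p l), q.length ≤ l ∧ ∀ x ∈ q.support, x ∈ Out p l

lemma GoodEar.rev {p : ℕ → V} {l : ℕ} (h : GoodEar G p l) :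
    GoodEar G (fun i => p (l - i)) l := by
  obtain ⟨h, q, hq, hs⟩ := h
  refine ⟨h.rev, ?_⟩
  refine ⟨(q.reverse).copy (by simp) (by simp), ?_, ?_⟩
  · rw [Walk.length_copy, Walk.length_reverse]
    exact hq
  · intro x hx
    rw [Walk.support_copy, Walk.support_reverse, List.mem_reverse] at hx
    rw [Out_rev]
    exact hs x hx

lemma GoodEar.induce {p : ℕ → V} {l : ℕ} (h : GoodEar G p l) :
    ∃ q : (G.induce (Out p l)).Walk ⟨p 0, h.1.zero_mem⟩ ⟨p l, h.1.last_mem⟩, q.length ≤ l := by
  obtain ⟨h, q, hq, hs⟩ := h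
  refine ⟨q.induce (Out p l) hs, ?_⟩
  have := congrArg List.length (Walk.support_induce q hs)
  simp only [List.length_attachWith, Walk.length_support] at this
  omega

lemma short_of_not_good {p : ℕ → V} {l : ℕ} (h : Ear G p l) (hn : ¬ GoodEar G p l) :
    ∀ q : (G.induce (Out p l)).Walk ⟨p 0, h.zero_mem⟩ ⟨p l, h.last_mem⟩, l < q.length := by
  intro q
  by_contra hcon
  refine hn ⟨h, q.map (Embedding.induce (Out p l)).toHom, ?_, ?_⟩
  · exact (le_of_eq (Walk.length_map (Embedding.induce (Out p l)).toHom q)).trans (by omega)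
  · intro x hx
    have e := Walk.support_map (Embedding.induce (Out p l)).toHom q
    have hx' : x ∈ (q.map (Embedding.induce (Out p l)).toHom).support := hx
    rw [e, List.mem_map] at hx'
    obtain ⟨y, _, rfl⟩ := hx'
    exact y.2

/-- the walk along an ear -/
lemma Ear.seg {p : ℕ → V} {l : ℕ} (h : Ear G p l) {j : ℕ} (hj : j ≤ l) :
    ∃ q : G.Walk (p 0) (p j), q.length = j ∧ ∀ x ∈ q.support, ∃ k, k ≤ j ∧ x = p k := by
  induction j with
  | zero =>
    refine ⟨Walk.nil, rfl, ?_⟩
    intro x hx
    rw [Walk.support_nil, List.mem_singleton] at hx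
    exact ⟨0, le_rfl, hx⟩
  | succ j ih =>
    obtain ⟨q, h1, h2⟩ := ih (by omega)
    refine ⟨q.concat (h.adj j (by omega)), ?_, ?_⟩
    · rw [Walk.length_concat, h1]
    · intro x hx
      rw [Walk.support_concat, List.mem_append, List.mem_singleton] at hx
      rcases hx with hx | hx
      · obtain ⟨k, hk, rfl⟩ := h2 x hx
        exact ⟨k, by omega, rfl⟩
      · exact ⟨j + 1, le_rfl, hx⟩

/-- a closed ear contains a good ear -/
lemma Ear.loop {p : ℕ → V} {l : ℕ} (h : Ear G p l) (hadj : G.Adj (p 0) (p l)) :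
    ∃ p' l', GoodEar G p' l' ∧ p' l' = p l := by
  have h2 := h.two
  obtain ⟨a, ha⟩ : ∃ a, a = (l - 1) / 2 := ⟨_, rfl⟩
  refine ⟨fun i => p (a + i), l - a, ⟨?_, ?_⟩, ?_⟩
  · refine ⟨by omega, ?_, ?_, ?_⟩
    · intro i j hi hj he
      have := h.inj (a + i) (a + j) (by omega) (by omega) he
      omega
    · intro i hi
      exact h.adj (a + i) (by omega)
    · intro i hi hil z hz
      rcases h.nbr (a + i) (by omega) (by omega) z hz with rfl | rfl
      · left
        show p (a + i - 1) = p (a + (i - 1))
        congr 1; omega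
      · right; rfl
  · obtain ⟨q, h3, h4⟩ := h.seg (j := a) (by omega)
    have e : a + (l - a) = l := by omega
    refine ⟨(q.reverse.concat hadj).copy (by simp) (by simp [e]), ?_, ?_⟩
    · rw [Walk.length_copy, Walk.length_concat, Walk.length_reverse, h3]
      omega
    · intro x hx i hi hil he
      rw [Walk.support_copy, Walk.support_concat, List.mem_append,
        List.mem_singleton, Walk.support_reverse, List.mem_reverse] at hx
      rcases hx with hx | rfl
      · obtain ⟨k, hk, rfl⟩ := h4 x hx
        have := h.inj k (a + i) (by omega) (by omega) he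
        omega
      · have := h.inj l (a + i) (by omega) (by omega) he
        omega
  · show p (a + (l - a)) = p l
    congr 1; omega

/-- an ear whose first vertex has degree two can be extended or is closed -/
lemma Ear.extend {p : ℕ → V} {l : ℕ} (h : Ear G p l) (hd : dgr G (p 0) = 2) :
    (∃ p', Ear G p' (l + 1) ∧ ∀ i, p' (i + 1) = p i) ∨
      (G.Adj (p 0) (p l) ∧ ∀ z, G.Adj (p 0) z → z = p 1 ∨ z = p l) := by
  have h2 := h.two
  obtain ⟨y, hy1, hy2⟩ : ∃ y, y ≠ p 1 ∧ ∀ z, G.Adj (p 0) z ↔ z = p 1 ∨ z = y := by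
    obtain ⟨x, y, hxy, hz⟩ := dgr_two hd
    have h1 := (hz (p 1)).1 (h.adj 0 (by omega))
    rcases h1 with h1 | h1
    · exact ⟨y, by rw [h1]; exact hxy.symm, by rw [h1]; exact hz⟩
    · refine ⟨x, by rw [h1]; exact hxy, ?_⟩
      intro z
      rw [h1, hz z]
      tauto
  have hy3 : G.Adj (p 0) y := (hy2 y).2 (Or.inr rfl)
  by_cases hin : ∃ i, i ≤ l ∧ y = p i
  · right
    obtain ⟨i, hi, rfl⟩ := hin
    have hi0 : i ≠ 0 := by
      rintro rfl
      exact hy3.ne rfl
    have hi1 : i ≠ 1 := by
      rintro rfl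
      exact hy1 rfl
    have hil : i = l := by
      by_contra hcon
      rcases h.nbr i (by omega) (by omega) (p 0) hy3.symm with he | he
      · have := h.inj 0 (i - 1) (by omega) (by omega) he
        omega
      · have := h.inj 0 (i + 1) (by omega) (by omega) he
        omega
    subst hil
    exact ⟨hy3, fun z hz => (hy2 z).1 hz⟩
  · left
    push Not at hin
    refine ⟨fun i => if i = 0 then y else p (i - 1), ⟨by omega, ?_, ?_, ?_⟩, ?_⟩
    · intro i j hi hj he
      by_cases hi0 : i = 0
      · by_cases hj0 : j = 0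
        · omega
        · simp only [hi0, hj0, if_true, if_false] at he
          exact absurd he (hin (j - 1) (by omega))
      · by_cases hj0 : j = 0
        · simp only [hi0, hj0, if_true, if_false] at he
          exact absurd he.symm (hin (i - 1) (by omega))
        · simp only [hi0, hj0, if_false] at he
          have := h.inj (i - 1) (j - 1) (by omega) (by omega) he
          omega
    · intro i hi
      by_cases hi0 : i = 0
      · subst hi0
        simpa using hy3.symm
      · have := h.adj (i - 1) (by omega)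
        rw [show i - 1 + 1 = i by omega] at this
        simpa [hi0] using this
    · intro i hi hil z hz
      have hi0 : i ≠ 0 := by omega
      simp only [hi0, if_false] at hz
      by_cases hi1 : i = 1
      · subst hi1
        rcases (hy2 z).1 hz with rfl | rfl
        · right; simp
        · left; simp
      · rcases h.nbr (i - 1) (by omega) (by omega) z hz with rfl | rfl
        · left
          rw [if_neg (by omega)]
        · right
          rw [if_neg (by omega)]
          congr 1; omega
    · intro i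
      simp

lemma Ear.lt_card [Fintype V] {p : ℕ → V} {l : ℕ} (h : Ear G p l) : l < Fintype.card V := by
  have : Function.Injective (fun i : Fin (l + 1) => p i.1) := by
    intro i j he
    exact Fin.ext (h.inj _ _ (by omega) (by omega) he)
  have := Fintype.card_le_of_injective _ this
  rw [Fintype.card_fin] at this
  omega

/-- the ear with one inner vertex -/
lemma ear_two {x y z : V} (hyz : y ≠ z) (hx : ∀ w, G.Adj x w ↔ w = y ∨ w = z) :
    Ear G (fun i => if i = 0 then y else if i = 1 then x else z) 2 := by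
  have hy : G.Adj x y := (hx y).2 (Or.inl rfl)
  have hz : G.Adj x z := (hx z).2 (Or.inr rfl)
  refine ⟨le_rfl, ?_, ?_, ?_⟩
  · intro i j hi hj he
    have h1 := hy.ne
    have h2 := hz.ne
    interval_cases i <;> interval_cases j <;> simp_all
  · intro i hi
    interval_cases i
    · simpa using hy.symm
    · simpa using hz
  · intro i hi hil w hw
    have : i = 1 := by omega
    subst this
    simpa using (hx w).1 (by simpa using hw)

/-- a maximal ear with a property -/
lemma exists_max [Fintype V] (Q : (ℕ → V) → ℕ → Prop) (h0 : ∃ p l, Ear G p l ∧ Q p l) :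
    ∃ p l, Ear G p l ∧ Q p l ∧ ∀ p' l', Ear G p' l' → Q p' l' → l' ≤ l := by
  classical
  obtain ⟨p0, l0, h1, h2⟩ := h0
  let P : ℕ → Prop := fun l => ∃ p, Ear G p l ∧ Q p l
  have hP : ∃ l, l ≤ Fintype.card V ∧ P l := ⟨l0, h1.lt_card.le, p0, h1, h2⟩
  obtain ⟨l, hl⟩ : ∃ l, l = Nat.findGreatest P (Fintype.card V) := ⟨_, rfl⟩
  obtain ⟨m, hm1, hm2⟩ := hP
  have hPl : P l := by
    rw [hl]
    exact Nat.findGreatest_spec hm1 hm2
  obtain ⟨p, hp1, hp2⟩ := hPl
  refine ⟨p, l, hp1, hp2, ?_⟩
  intro p' l' h3 h4
  rw [hl]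
  exact Nat.le_findGreatest h3.lt_card.le ⟨p', h3, h4⟩

/-- a closed set of vertices is everything -/
lemma closed_univ (hG : G.Connected) (A : Set V) (hA : A.Nonempty)
    (hcl : ∀ x ∈ A, ∀ y, G.Adj x y → y ∈ A) : ∀ y, y ∈ A := by
  obtain ⟨x, hx⟩ := hA
  intro y
  obtain ⟨q⟩ := hG.preconnected x y
  induction q with
  | nil => exact hx
  | cons hadj q ih => exact ih (hcl _ hx _ hadj)

/-- In a connected graph with all degrees two every vertex is the end of a good ear. -/
lemma exists_good_cycle [Fintype V] (h2 : ∀ v, dgr G v = 2) (v : V) :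
    ∃ p l, GoodEar G p l ∧ p 0 = v := by
  have h0 : ∃ p l, Ear G p l ∧ p l = v := by
    obtain ⟨y, _, hyz, hy⟩ := dgr_two (h2 v)
    have hvy : G.Adj v y := (hy y).2 (Or.inl rfl)
    obtain ⟨a, b, hab, hh⟩ := dgr_two (h2 y)
    have hv := (hh v).1 hvy.symm
    rcases hv with rfl | rfl
    · exact ⟨_, 2, ear_two (x := y) hab.symm (fun w => by rw [hh w]; tauto), by simp⟩
    · exact ⟨_, 2, ear_two (x := y) hab hh, by simp⟩
  obtain ⟨p, l, h, hv, hmax⟩ := exists_max (fun p l => p l = v) h0
  rcases h.extend (h2 _) with ⟨p', h3, h4⟩ | ⟨h3, _⟩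
  · have := hmax p' (l + 1) h3 (by rw [h4]; exact hv)
    omega
  · obtain ⟨p', l', h5, h6⟩ := h.loop h3
    refine ⟨_, l', h5.rev, ?_⟩
    show p' (l' - 0) = v
    rw [Nat.sub_zero, h6, hv]

/-- Without good ears (with a branch vertex at the end) every vertex of degree two lies on a
thread. -/
lemma exists_thread [Fintype V] (hG : G.Connected) (hmin : ∀ v, 2 ≤ dgr G v)
    (hbr : ∃ b, 3 ≤ dgr G b)
    (hno : ∀ p l, GoodEar G p l → ¬ 3 ≤ dgr G (p l)) (x : V) (hx : dgr G x = 2) :
    ∃ p l t, Thread G {v | 3 ≤ dgr G v} p l ∧ 0 < t ∧ t < l ∧ p t = x := by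
  have h0 : ∃ p l, Ear G p l ∧ ∃ t, 0 < t ∧ t < l ∧ p t = x := by
    obtain ⟨y, z, hyz, hy⟩ := dgr_two hx
    exact ⟨_, 2, ear_two hyz hy, 1, by omega, by omega, by simp⟩
  obtain ⟨p, l, h, hv, hmax⟩ := exists_max (fun p l => ∃ t, 0 < t ∧ t < l ∧ p t = x) h0
  -- the first vertex of a maximal ear
  have key : ∀ p, Ear G p l → (∃ t, 0 < t ∧ t < l ∧ p t = x) → 3 ≤ dgr G (p 0) := by
    intro p h ⟨t, ht1, ht2, ht3⟩
    by_contra hcon
    have hd : dgr G (p 0) = 2 := by
      have := hmin (p 0)
      omega
    rcases h.extend hd with ⟨p', h3, h4⟩ | ⟨h3, h4⟩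
    · have := hmax p' (l + 1) h3 ⟨t + 1, by omega, by omega, by rw [h4]; exact ht3⟩
      omega
    · obtain ⟨p', l', h5, h6⟩ := h.loop h3
      have h7 := hno p' l' h5
      rw [h6] at h7
      have hdl : dgr G (p l) = 2 := by
        have := hmin (p l)
        omega
      -- everything lies on a cycle
      obtain ⟨b, hb⟩ := hbr
      have hl2 := h.two
      have hcl := closed_univ hG {z | ∃ i, i ≤ l ∧ z = p i} ⟨p 0, 0, by omega, rfl⟩ ?_ b
      · obtain ⟨i, hi, rfl⟩ := hcl
        by_cases hi0 : i = 0
        · subst hi0; omega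
        · by_cases hil : i = l
          · subst hil; omega
          · have : dgr G (p i) ≤ 2 := by
              unfold dgr
              have hsub : G.neighborSet (p i) ⊆ {p (i - 1), p (i + 1)} := by
                intro z hz
                exact h.nbr i (by omega) (by omega) z hz
              exact (Set.ncard_le_ncard hsub (Set.toFinite _)).trans
                ((Set.ncard_insert_le _ _).trans (by rw [Set.ncard_singleton]))
            omega
      · rintro z ⟨i, hi, rfl⟩ w hw
        by_cases hi0 : i = 0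
        · subst hi0
          rcases h4 w hw with rfl | rfl
          · exact ⟨1, by omega, rfl⟩
          · exact ⟨l, le_rfl, rfl⟩
        · by_cases hil : i = l
          · subst hil
            obtain ⟨a, b, hab, hh⟩ := dgr_two hdl
            have e1 := (hh (p 0)).1 h3.symm
            have e2' := h.adj (i - 1) (by omega)
            rw [show i - 1 + 1 = i by omega] at e2'
            have e2 := (hh (p (i - 1))).1 e2'.symm
            have e3 : p 0 ≠ p (i - 1) := by
              intro he
              have := h.inj 0 (i - 1) (by omega) (by omega) he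
              omega
            have e4 := (hh w).1 hw
            have : w = p 0 ∨ w = p (i - 1) := by
              clear hh h7 hno hmin hmax
              grind
            rcases this with rfl | rfl
            · exact ⟨0, by omega, rfl⟩
            · exact ⟨i - 1, by omega, rfl⟩
          · rcases h.nbr i (by omega) (by omega) w hw with rfl | rfl
            · exact ⟨i - 1, by omega, rfl⟩
            · exact ⟨i + 1, by omega, rfl⟩
  have hzero := key p h hv
  have hlast : 3 ≤ dgr G (p l) := by
    have := key _ h.rev (by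
      obtain ⟨t, ht1, ht2, ht3⟩ := hv
      refine ⟨l - t, by omega, by omega, ?_⟩
      show p (l - (l - t)) = x
      rw [show l - (l - t) = t by omega]
      exact ht3)
    simpa using this
  obtain ⟨t, ht1, ht2, ht3⟩ := hv
  refine ⟨p, l, t, ⟨h, hzero, hlast, ?_, short_of_not_good h ?_⟩, ht1, ht2, ht3⟩
  · intro i hi hil hcon
    have : dgr G (p i) ≤ 2 := by
      unfold dgr
      have hsub : G.neighborSet (p i) ⊆ {p (i - 1), p (i + 1)} := by
        intro z hz
        exact h.nbr i hi hil z hz
      exact (Set.ncard_le_ncard hsub (Set.toFinite _)).trans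
        ((Set.ncard_insert_le _ _).trans (by rw [Set.ncard_singleton]))
    have hcon' : 3 ≤ dgr G (p i) := hcon
    omega
  · intro hgood
    exact hno p l hgood hlast

end Pool.Agent.W5h10.MD
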